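import Pool.Agent.MP_9f8ce8_lc.CapDefs

section

/-! One-variable inequalities for the entropy defect of a noisy bit. -/

namespace Pool.Agent.MP_9f8ce8_lc.Cap

open Finset Real Filter Topology

noncomputable def F (t : ℝ) : ℝ := ((1 + t) * log (1 + t) + (1 - t) * log (1 - t)) / 2

noncomputable def bb (n : ℕ) : ℝ := (1 + (-1) ^ n) / 2 / (((n : ℝ) + 1) * (n + 2))

theorem bb_nonneg (n : ℕ) : 0 ≤ bb n := by
  have : (0 : ℝ) ≤ 1 + (-1) ^ n := by rcases neg_one_pow_eq_or ℝ n with h | h <;> simp [h]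
  unfold bb
  positivity

theorem psi_sum {t : ℝ} (h : |t| < 1) :
    HasSum (fun n : ℕ => t ^ (n + 2) / (((n : ℝ) + 1) * (n + 2))) ((1 - t) * log (1 - t) + t) := by
  have h1 := hasSum_pow_div_log_of_abs_lt_one h
  have h2 := (h1.mul_left t).sub ((hasSum_nat_add_iff' 1).2 h1)
  have e : (1 - t) * log (1 - t) + t =
      t * -log (1 - t) - (-log (1 - t) - ∑ i ∈ range 1, t ^ (i + 1) / ((i : ℝ) + 1)) := by
    simp
    ring
  have e2 : (fun n : ℕ => t ^ (n + 2) / (((n : ℝ) + 1) * (n + 2))) = fun n : ℕ =>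
      t * (t ^ (n + 1) / ((n : ℝ) + 1)) - t ^ (n + 1 + 1) / (((n + 1 : ℕ) : ℝ) + 1) := by
    funext n
    push_cast
    field_simp
    ring
  rw [e, e2]
  exact h2

theorem F_sum {t : ℝ} (h : |t| < 1) : HasSum (fun n : ℕ => bb n * t ^ (n + 2)) (F t) := by
  have h1 := ((psi_sum h).add (psi_sum (t := -t) (by rwa [abs_neg]))).div_const 2
  have e : F t = ((1 - t) * log (1 - t) + t + ((1 - -t) * log (1 - -t) + -t)) / 2 := by
    rw [F, sub_neg_eq_add]
    ring
  have e2 : (fun n : ℕ => bb n * t ^ (n + 2)) = fun n : ℕ =>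
      (t ^ (n + 2) / (((n : ℝ) + 1) * (n + 2)) + (-t) ^ (n + 2) / (((n : ℝ) + 1) * (n + 2))) / 2 := by
    funext n
    rw [bb, neg_pow t, pow_add (-1 : ℝ)]
    ring
  rw [e, e2]
  exact h1

theorem F_cont : Continuous F := by
  unfold F
  exact ((continuous_mul_log.comp (continuous_const.add continuous_id)).add
    (continuous_mul_log.comp (continuous_const.sub continuous_id))).div_const 2

theorem F_neg (t : ℝ) : F (-t) = F t := by
  rw [F, F, sub_neg_eq_add, ← sub_eq_add_neg, add_comm]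

theorem F_abs (t : ℝ) : F |t| = F t := by
  rcases abs_choice t with h | h <;> rw [h]
  exact F_neg t

theorem F_zero : F 0 = 0 := by simp [F]

theorem cheb_term {β a b : ℝ} (h0 : 0 ≤ β) (h1 : β ≤ 1) (ha : 0 ≤ a) (hab : a ≤ b) (j k : ℕ) :
    0 ≤ (β ^ j - β ^ k) * (a ^ j * b ^ k - b ^ j * a ^ k) := by
  wlog h : j ≤ k generalizing j k
  · have := this k j (le_of_not_ge h)
    linarith [show (β ^ j - β ^ k) * (a ^ j * b ^ k - b ^ j * a ^ k) =
      (β ^ k - β ^ j) * (a ^ k * b ^ j - b ^ k * a ^ j) by ring]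
  obtain ⟨d, rfl⟩ := Nat.exists_eq_add_of_le h
  refine mul_nonneg (sub_nonneg.2 (pow_le_pow_of_le_one h0 h1 h)) ?_
  have : a ^ j * b ^ (j + d) - b ^ j * a ^ (j + d) = a ^ j * b ^ j * (b ^ d - a ^ d) := by ring
  rw [this]
  exact mul_nonneg (mul_nonneg (pow_nonneg ha _) (pow_nonneg (ha.trans hab) _))
    (sub_nonneg.2 (pow_le_pow_left₀ ha hab _))

theorem F_mul {s t : ℝ} (hs : 0 ≤ s) (hs' : s < 1) (ht : 0 ≤ t) (ht' : t < 1) :
    HasSum (fun p : ℕ × ℕ => bb p.1 * s ^ (p.1 + 2) * (bb p.2 * t ^ (p.2 + 2))) (F s * F t) := by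
  have a := F_sum (t := s) (by rwa [abs_of_nonneg hs])
  have b := F_sum (t := t) (by rwa [abs_of_nonneg ht])
  exact a.mul b (a.summable.mul_of_nonneg b.summable
    (fun n => mul_nonneg (bb_nonneg n) (pow_nonneg hs _))
    fun n => mul_nonneg (bb_nonneg n) (pow_nonneg ht _))

theorem F_cheb' {β a b : ℝ} (h0 : 0 ≤ β) (h1 : β ≤ 1) (ha : 0 ≤ a) (hab : a ≤ b) (hb : b < 1) :
    F (β * b) * F a ≤ F (β * a) * F b := by
  have hb0 := ha.trans hab
  have ha1 := hab.trans_lt hb
  have p1 := mul_nonneg h0 ha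
  have p2 := mul_nonneg h0 hb0
  have q1 : β * a < 1 := by nlinarith
  have q2 : β * b < 1 := by nlinarith
  have := (((F_mul p1 q1 hb0 hb).add (F_mul hb0 hb p1 q1)).sub
    ((F_mul p2 q2 ha ha1).add (F_mul ha ha1 p2 q2))).nonneg fun p => by
      have := mul_nonneg (mul_nonneg (bb_nonneg p.1) (bb_nonneg p.2))
        (cheb_term h0 h1 ha hab (p.1 + 2) (p.2 + 2))
      simp only [mul_pow]
      linarith
  linarith

theorem F_cheb {β a b : ℝ} (h0 : 0 ≤ β) (h1 : β ≤ 1) (ha : 0 ≤ a) (hab : a < b) (hb : b ≤ 1) :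
    F (β * b) * F a ≤ F (β * a) * F b := by
  have c1 : Continuous fun x => F (β * x) * F a :=
    (F_cont.comp (continuous_const.mul continuous_id)).mul continuous_const
  have c2 : Continuous fun x => F (β * a) * F x := continuous_const.mul F_cont
  refine le_of_tendsto_of_tendsto (b := 𝓝[<] b) (c1.tendsto b |>.mono_left nhdsWithin_le_nhds)
    (c2.tendsto b |>.mono_left nhdsWithin_le_nhds) ?_
  filter_upwards [Ioo_mem_nhdsLT hab] with x hx
  exact F_cheb' h0 h1 ha hx.1.le (hx.2.trans_le hb)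

theorem F_one : F 1 = log 2 := by
  norm_num [F]

theorem F_ge {t : ℝ} (h : |t| ≤ 1) : t ^ 2 / 2 ≤ F t := by
  rw [← F_abs, ← sq_abs]
  rcases h.eq_or_lt with e | e
  · rw [e, F_one]
    linarith [log_two_gt_d9]
  · have := le_hasSum (F_sum (t := |t|) (by rwa [abs_abs])) 0
      fun n _ => mul_nonneg (bb_nonneg n) (pow_nonneg (abs_nonneg t) _)
    norm_num [bb] at this ⊢
    linarith

theorem F_le {t : ℝ} (h : |t| ≤ 1) : F t ≤ t ^ 2 := by
  have k : ∀ x : ℝ, 0 ≤ x → x * log x ≤ x * (x - 1) := fun x hx => by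
    rcases hx.eq_or_lt with e | e
    · simp [← e]
    · exact mul_le_mul_of_nonneg_left (log_le_sub_one_of_pos e) hx
  have a := k (1 + t) (by linarith [(abs_le.1 h).1])
  have b := k (1 - t) (by linarith [(abs_le.1 h).2])
  rw [F]
  nlinarith

theorem F_scale {β t : ℝ} (h0 : 0 ≤ β) (h1 : β ≤ 1) (h : |t| ≤ 1) : F (β * t) ≤ β * F t := by
  have k : ∀ x : ℝ, 0 ≤ 1 + x → (1 + β * x) * log (1 + β * x) ≤ β * ((1 + x) * log (1 + x)) :=
    fun x hx => by
      have := convexOn_mul_log.2 (x := 1) (y := 1 + x) (Set.mem_Ici.2 zero_le_one) hx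
        (sub_nonneg.2 h1) h0 (by ring)
      simp only [smul_eq_mul, log_one, mul_zero, zero_add] at this
      rwa [show (1 - β) * 1 + β * (1 + x) = 1 + β * x by ring] at this
  have a := k t (by linarith [(abs_le.1 h).1])
  have b := k (-t) (by linarith [(abs_le.1 h).2])
  rw [mul_neg, ← sub_eq_add_neg, ← sub_eq_add_neg] at b
  rw [F, F]
  linarith

/-- capacity of the binary symmetric channel -/
noncomputable def G (a : ℝ) : ℝ := log 2 - binEntropy a

theorem ml2 (x : ℝ) : 2 * x * log (2 * x) = 2 * (x * log 2 + x * log x) := by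
  rcases eq_or_ne x 0 with h | h
  · simp [h]
  · rw [log_mul two_ne_zero h]
    ring

theorem G_eq (a : ℝ) : G a = F (1 - 2 * a) := by
  rw [G, F, binEntropy_eq_negMulLog_add_negMulLog_one_sub, negMulLog, negMulLog,
    show 1 + (1 - 2 * a) = 2 * (1 - a) by ring, show 1 - (1 - 2 * a) = 2 * a by ring, ml2, ml2]
  ring

theorem G_pos {a : ℝ} (h : a < 1 / 2) : 0 < G a :=
  sub_pos.2 (binEntropy_lt_log_two.2 fun e => by rw [e] at h; norm_num at h)

/-- entropy defect of a pair of masses seen through noise of rate `a` -/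
noncomputable def pe (a u v : ℝ) : ℝ :=
  ((1 - a) * u + a * v) * log ((1 - a) * u + a * v) +
    ((1 - a) * v + a * u) * log ((1 - a) * v + a * u) - 2 * ((u + v) / 2 * log ((u + v) / 2))

theorem pe_eq {u v : ℝ} (hu : 0 ≤ u) (hv : 0 ≤ v) :
    ∃ β : ℝ, |β| ≤ 1 ∧ u - v = (u + v) * β ∧ ∀ a, pe a u v = (u + v) * F (β * (1 - 2 * a)) := by
  rcases (add_nonneg hu hv).eq_or_lt with h | h
  · have e1 : u = 0 := by linarith
    have e2 : v = 0 := by linarith
    exact ⟨0, by simp, by simp [e1, e2], fun a => by simp [pe, e1, e2]⟩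
  refine ⟨(u - v) / (u + v), ?_, by field_simp, fun a => ?_⟩
  · rw [abs_div, abs_of_pos h, div_le_one h, abs_le]
    constructor <;> linarith
  have k : ∀ x : ℝ, (u + v) / 2 * x * log ((u + v) / 2 * x) =
      (u + v) / 2 * (x * log ((u + v) / 2) + x * log x) := fun x => by
    rcases eq_or_ne x 0 with e | e
    · simp [e]
    · rw [log_mul (half_pos h).ne' e]
      ring
  have e1 : (1 - a) * u + a * v = (u + v) / 2 * (1 + (u - v) / (u + v) * (1 - 2 * a)) := by
    field_simp
    ring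
  have e2 : (1 - a) * v + a * u = (u + v) / 2 * (1 - (u - v) / (u + v) * (1 - 2 * a)) := by
    field_simp
    ring
  rw [pe, e1, e2, k, k, F]
  ring

theorem pe_cmp {η η' u v : ℝ} (h0 : 0 ≤ η) (h1 : η < η') (h2 : η' < 1 / 2) (hu : 0 ≤ u)
    (hv : 0 ≤ v) : G η' / G η * pe η u v ≤ pe η' u v := by
  obtain ⟨β, hβ, -, e⟩ := pe_eq hu hv
  have k : ∀ a, a < 1 / 2 → F (β * (1 - 2 * a)) = F (|β| * (1 - 2 * a)) := fun a ha => by
    rw [← F_abs, abs_mul, abs_of_pos (a := 1 - 2 * a) (by linarith)]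
  have := F_cheb (a := 1 - 2 * η') (b := 1 - 2 * η) (abs_nonneg β) hβ (by linarith) (by linarith)
    (by linarith)
  rw [← G_eq, ← G_eq, ← k η (h1.trans h2), ← k η' h2] at this
  rw [e, e, div_mul_eq_mul_div, div_le_iff₀ (G_pos (h1.trans h2))]
  nlinarith [mul_le_mul_of_nonneg_left this (add_nonneg hu hv)]

theorem pe_ge {a u v e : ℝ} (h0 : 0 ≤ a) (h1 : a ≤ 1 / 2) (hu : 0 ≤ u) (hv : 0 ≤ v) (he : |e| ≤ 1)
    (t : ℝ) : (1 - 2 * a) ^ 2 / 2 * (2 * t * ((u - v) * e) - t ^ 2 * (u + v)) ≤ pe a u v := by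
  obtain ⟨β, hβ, e1, e2⟩ := pe_eq hu hv
  have h2 : |β * (1 - 2 * a)| ≤ 1 := by
    rw [abs_mul, abs_of_nonneg (a := 1 - 2 * a) (by linarith)]
    nlinarith [abs_nonneg β]
  have h3 : e ^ 2 ≤ 1 := (sq_le_one_iff_abs_le_one e).2 he
  have h4 : 2 * t * (β * e) - t ^ 2 ≤ β ^ 2 := by
    nlinarith [sq_nonneg (β - t * e), mul_le_mul_of_nonneg_left h3 (sq_nonneg t)]
  have h5 := mul_le_mul_of_nonneg_left h4
    (mul_nonneg (add_nonneg hu hv) (div_nonneg (sq_nonneg (1 - 2 * a)) zero_le_two))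
  have h6 := mul_le_mul_of_nonneg_left (F_ge h2) (add_nonneg hu hv)
  rw [e2, e1]
  nlinarith

theorem pe_le {a u v : ℝ} (h0 : 0 ≤ a) (h1 : a ≤ 1 / 2) (hu : 0 ≤ u) (hv : 0 ≤ v) :
    pe a u v ≤ G a * |u - v| := by
  obtain ⟨β, hβ, e1, e2⟩ := pe_eq hu hv
  have h2 := F_scale (t := 1 - 2 * a) (abs_nonneg β) hβ (by rw [abs_le]; constructor <;> linarith)
  rw [e2, e1, ← F_abs, abs_mul, abs_mul, abs_of_nonneg (a := 1 - 2 * a) (by linarith),
    abs_of_nonneg (add_nonneg hu hv), G_eq]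
  nlinarith [mul_le_mul_of_nonneg_left h2 (add_nonneg hu hv)]

theorem pe_pure {u v : ℝ} (a : ℝ) (hu : 0 ≤ u) (hv : 0 ≤ v) (h : u = 0 ∨ v = 0) :
    pe a u v = G a * (u + v) := by
  obtain ⟨β, -, e1, e2⟩ := pe_eq hu hv
  rw [e2, G_eq, mul_comm]
  rcases eq_or_ne (u + v) 0 with e | e
  · simp [e]
  rcases h with h | h
  · have : β = -1 := mul_left_cancel₀ e (by rw [← e1, h]; ring)
    rw [this, neg_one_mul, F_neg]
  · have : β = 1 := mul_left_cancel₀ e (by rw [← e1, h]; ring)
    rw [this, one_mul]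

end Pool.Agent.MP_9f8ce8_lc.Cap

end

section

/-! The law of labelled points under a prior, with one noise rate for each label. -/

namespace Pool.Agent.MP_9f8ce8_lc.Cap

open Finset Real Function

variable {n : ℕ} {ι Θ : Type} [Fintype ι] [DecidableEq ι] [Fintype Θ]

def fl (i : ι) (p : ι → X n × Bool) : ι → X n × Bool := update p i ((p i).1, !(p i).2)

theorem fl_self (i : ι) (p : ι → X n × Bool) : fl i p i = ((p i).1, !(p i).2) := update_self ..

theorem fl_ne {i j : ι} (h : j ≠ i) (p : ι → X n × Bool) : fl i p j = p j := update_of_ne h ..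

theorem fl_fl (i : ι) (p : ι → X n × Bool) : fl i (fl i p) = p := by
  rw [fl, fl_self, fl, update_idem]
  simp

theorem fl_comm {i j : ι} (h : i ≠ j) (p : ι → X n × Bool) : fl i (fl j p) = fl j (fl i p) := by
  rw [fl, fl_ne h, fl, fl, fl_ne h.symm, fl, update_comm h]

theorem sum_fl (i : ι) (ψ : (ι → X n × Bool) → ℝ) : ∑ p, ψ (fl i p) = ∑ p, ψ p :=
  Equiv.sum_comp (Function.Involutive.toPerm (fl i) (fl_fl i)) ψ

theorem ex_nonneg {a : ℝ} (h0 : 0 ≤ a) (h1 : a ≤ 1) (c : X n → Bool) {D : X n → ℝ}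
    (hD : IsProb D) (y : X n × Bool) : 0 ≤ exProb a c D y :=
  mul_nonneg (hD.1 _) (by split_ifs <;> linarith)

theorem ex_sum (a : ℝ) (c : X n → Bool) {D : X n → ℝ} (hD : IsProb D) :
    ∑ y, exProb a c D y = 1 := by
  rw [Fintype.sum_prod_type, ← hD.2]
  refine sum_congr rfl fun x _ => ?_
  cases h : c x <;> simp [exProb, h] <;> ring

theorem ex_mix (a : ℝ) (c : X n → Bool) (D : X n → ℝ) (y : X n × Bool) :
    exProb a c D y = (1 - a) * exProb 0 c D y + a * exProb 0 c D (y.1, !y.2) := by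
  obtain ⟨x, b⟩ := y
  cases h : c x <;> cases b <;> simp [exProb, h] <;> ring

variable (μ : Θ → ℝ) (c : Θ → X n → Bool) (D : Θ → X n → ℝ)

def Q (r : ι → ℝ) (p : ι → X n × Bool) : ℝ :=
  ∑ θ, μ θ * ∏ j, exProb (r j) (c θ) (D θ) (p j)

theorem Q_split (r : ι → ℝ) (i : ι) (a : ℝ) (p : ι → X n × Bool) :
    Q μ c D (update r i a) p = ∑ θ, μ θ * (exProb a (c θ) (D θ) (p i) *
      ∏ j ∈ univ.erase i, exProb (r j) (c θ) (D θ) (p j)) := by
  refine sum_congr rfl fun θ _ => ?_
  rw [← mul_prod_erase univ _ (mem_univ i), update_self]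
  congr 2
  exact prod_congr rfl fun j hj => by rw [update_of_ne (ne_of_mem_erase hj)]

theorem Q_mix (r : ι → ℝ) (i : ι) (a : ℝ) (p : ι → X n × Bool) :
    Q μ c D (update r i a) p =
      (1 - a) * Q μ c D (update r i 0) p + a * Q μ c D (update r i 0) (fl i p) := by
  simp only [Q_split, mul_sum, ← sum_add_distrib]
  refine sum_congr rfl fun θ _ => ?_
  have e : ∏ j ∈ univ.erase i, exProb (r j) (c θ) (D θ) (fl i p j) =
      ∏ j ∈ univ.erase i, exProb (r j) (c θ) (D θ) (p j) :=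
    prod_congr rfl fun j hj => by rw [fl_ne (ne_of_mem_erase hj)]
  rw [e, fl_self, ex_mix a]
  ring

theorem Q_half (r : ι → ℝ) (j : ι) (p : ι → X n × Bool) :
    Q μ c D (update r j (1 / 2)) p = (Q μ c D r p + Q μ c D r (fl j p)) / 2 := by
  have h1 := Q_mix μ c D r j (r j) p
  have h2 := Q_mix μ c D r j (r j) (fl j p)
  rw [update_eq_self] at h1 h2
  rw [fl_fl] at h2
  rw [Q_mix, h1, h2]
  ring

noncomputable def Ent (r : ι → ℝ) : ℝ := ∑ p, Q μ c D r p * log (Q μ c D r p)

theorem Ent_inc (r : ι → ℝ) (i : ι) (a : ℝ) :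
    Ent μ c D (update r i a) - Ent μ c D (update r i (1 / 2)) =
      (∑ p, pe a (Q μ c D (update r i 0) p) (Q μ c D (update r i 0) (fl i p))) / 2 := by
  have h1 := sum_fl i fun p => Q μ c D (update r i a) p * log (Q μ c D (update r i a) p)
  have h2 : ∑ p, pe a (Q μ c D (update r i 0) p) (Q μ c D (update r i 0) (fl i p)) =
      Ent μ c D (update r i a) + ∑ p, Q μ c D (update r i a) (fl i p) *
        log (Q μ c D (update r i a) (fl i p)) - 2 * Ent μ c D (update r i (1 / 2)) := by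
    simp only [Ent, mul_sum, ← sum_add_distrib, ← sum_sub_distrib]
    refine sum_congr rfl fun p _ => ?_
    rw [Q_mix μ c D r i a p, Q_mix μ c D r i a (fl i p), Q_mix μ c D r i (1 / 2) p, fl_fl, pe,
      show ∀ u v : ℝ, (1 - 1 / 2) * u + 1 / 2 * v = (u + v) / 2 from fun u v => by ring]
  rw [h2, h1, ← Ent]
  ring

variable {μ D}

theorem Q_nonneg (hμ : ∀ θ, 0 ≤ μ θ) (hD : ∀ θ, IsProb (D θ)) {r : ι → ℝ}
    (hr : ∀ j, 0 ≤ r j ∧ r j ≤ 1) (p : ι → X n × Bool) : 0 ≤ Q μ c D r p :=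
  sum_nonneg fun θ _ => mul_nonneg (hμ θ)
    (prod_nonneg fun j _ => ex_nonneg (hr j).1 (hr j).2 _ (hD θ) _)

theorem upd0 {r : ι → ℝ} (hr : ∀ j, 0 ≤ r j ∧ r j ≤ 1) (i : ι) :
    ∀ j, 0 ≤ update r i 0 j ∧ update r i 0 j ≤ 1 := fun j => by
  rcases eq_or_ne j i with h | h
  · simp [h]
  · simpa [h] using hr j

theorem Q_sum (hD : ∀ θ, IsProb (D θ)) (r : ι → ℝ) : ∑ p, Q μ c D r p = ∑ θ, μ θ := by
  simp only [Q]
  rw [sum_comm]
  refine sum_congr rfl fun θ _ => ?_
  rw [← mul_sum, ← Fintype.piFinset_univ, ← prod_univ_sum]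
  simp [ex_sum _ _ (hD θ)]

theorem marg {κ Y : Type} [Fintype κ] [DecidableEq κ] [Fintype Y] (e : κ → ι) (he : Injective e)
    (w : ι → Y → ℝ) (hw : ∀ j, ∑ y, w j y = 1) (H : (κ → Y) → ℝ) :
    ∑ p : ι → Y, (∏ j, w j (p j)) * H (fun k => p (e k)) =
      ∑ q : κ → Y, (∏ k, w (e k) (q k)) * H q := by
  classical
  let E : κ ⊕ {j // ¬ j ∈ Set.range e} ≃ ι :=
    (Equiv.sumCongr (Equiv.ofInjective e he) (Equiv.refl _)).trans
      (Equiv.sumCompl fun j => j ∈ Set.range e)
  have hE : ∀ k, E (Sum.inl k) = e k := fun k => rfl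
  rw [← Equiv.sum_comp ((Equiv.sumArrowEquivProdArrow _ _ Y).symm.trans
    (Equiv.arrowCongr E (Equiv.refl Y))), Fintype.sum_prod_type]
  refine sum_congr rfl fun q _ => ?_
  have h1 : ∀ t : {j // ¬ j ∈ Set.range e} → Y, ∀ s,
      ((Equiv.sumArrowEquivProdArrow _ _ Y).symm.trans (Equiv.arrowCongr E (Equiv.refl Y)))
        (q, t) (E s) = Sum.elim q t s := fun t s => by
    simp [Equiv.arrowCongr, Equiv.sumArrowEquivProdArrow]
  have h2 : ∑ t : {j // ¬ j ∈ Set.range e} → Y, ∏ s, w (E (Sum.inr s)) (t s) = 1 := by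
    rw [← Fintype.piFinset_univ, ← prod_univ_sum]
    simp [hw]
  rw [← mul_one ((∏ k, w (e k) (q k)) * H q), ← h2, mul_sum]
  refine sum_congr rfl fun t _ => ?_
  rw [← Equiv.prod_comp E, Fintype.prod_sum_type]
  simp only [← hE, h1, Sum.elim_inl, Sum.elim_inr]
  ring

/-- the sign of a bit -/
def sg (b : Bool) : ℝ := if b then 1 else -1

theorem corrH (hD : ∀ θ, IsProb (D θ)) {m : ℕ} (e : Option (Fin m) → ι) (he : Injective e)
    {r : ι → ℝ} {a : ℝ} (h0 : r (e none) = 0) (h1 : ∀ k, r (e (some k)) = a)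
    (H : (Option (Fin m) → X n × Bool) → ℝ) :
    ∑ p, Q μ c D r p * H (fun k => p (e k)) = ∑ θ, μ θ * ∑ S : Sample n m, ∑ x,
      (∏ k, exProb a (c θ) (D θ) (S k)) * D θ x * H fun o => o.elim (x, c θ x) S := by
  simp only [Q, sum_mul]
  rw [sum_comm]
  refine sum_congr rfl fun θ _ => ?_
  simp only [mul_assoc (μ θ)]
  rw [← mul_sum, marg e he (fun j => exProb (r j) (c θ) (D θ)) fun j => ex_sum _ _ (hD θ),
    ← Equiv.sum_comp (Equiv.piOptionEquivProd (β := fun _ => X n × Bool)).symm,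
    Fintype.sum_prod_type, sum_comm]
  congr 1
  refine sum_congr rfl fun S _ => ?_
  rw [Fintype.sum_prod_type]
  refine sum_congr rfl fun x _ => ?_
  have h2 : ∀ y : X n × Bool, (Equiv.piOptionEquivProd (β := fun _ => X n × Bool)).symm (y, S) =
      fun o => o.elim y S := fun y => funext fun o => by cases o <;> rfl
  simp only [h2, Fintype.prod_option, h0, h1, Option.elim]
  cases h : c θ x <;> simp [exProb, h, mul_comm]

end Pool.Agent.MP_9f8ce8_lc.Cap

end

section

/-! The change of entropy when one label is revealed. -/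

namespace Pool.Agent.MP_9f8ce8_lc.Cap

open Finset Real Function

variable {n : ℕ} {ι Θ : Type} [Fintype ι] [DecidableEq ι] [Fintype Θ]

/-- the signed law of a sample and a test point -/
def g {m : ℕ} (a : ℝ) (c : X n → Bool) (D : X n → ℝ) (S : Sample n m) (x : X n) : ℝ :=
  (∏ k, exProb a c D (S k)) * D x * sg (c x)

theorem sg_not (b : Bool) : sg (!b) = -sg b := by cases b <;> simp [sg]

theorem abs_sg (b : Bool) : |sg b| = 1 := by cases b <;> simp [sg]

theorem anti_sum (i : ι) (u ε : (ι → X n × Bool) → ℝ) (h : ∀ p, ε (fl i p) = -ε p) :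
    ∑ p, (u p - u (fl i p)) * ε p = 2 * ∑ p, u p * ε p := by
  have := sum_fl i fun p => u p * ε p
  simp only [h, mul_neg, sum_neg_distrib] at this
  simp only [sub_mul, sum_sub_distrib]
  linarith

variable {μ : Θ → ℝ} (c : Θ → X n → Bool) {D : Θ → X n → ℝ}

theorem step_zero (hμ : ∀ θ, 0 ≤ μ θ) (hD : ∀ θ, IsProb (D θ)) {r : ι → ℝ}
    (hr : ∀ j, 0 ≤ r j ∧ r j ≤ 1) (i : ι) {a : ℝ} (h0 : 0 ≤ a) (h1 : a ≤ 1 / 2) :
    Ent μ c D (update r i (1 / 2)) ≤ Ent μ c D (update r i a) := by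
  rw [← sub_nonneg, Ent_inc]
  refine div_nonneg (sum_nonneg fun p _ => ?_) zero_le_two
  simpa using pe_ge (e := 0) h0 h1 (Q_nonneg c hμ hD (upd0 hr i) p)
    (Q_nonneg c hμ hD (upd0 hr i) (fl i p)) (by simp) 0

theorem F_convex : ConvexOn ℝ (Set.Icc (-1) 1) F := by
  refine ⟨convex_Icc _ _, fun x hx y hy s t hs ht hst => ?_⟩
  have a := convexOn_mul_log.2 (x := 1 + x) (y := 1 + y) (Set.mem_Ici.2 (by linarith [hx.1]))
    (Set.mem_Ici.2 (by linarith [hy.1])) hs ht hst
  have b := convexOn_mul_log.2 (x := 1 - x) (y := 1 - y) (Set.mem_Ici.2 (by linarith [hx.2]))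
    (Set.mem_Ici.2 (by linarith [hy.2])) hs ht hst
  simp only [smul_eq_mul] at a b ⊢
  rw [show s * (1 + x) + t * (1 + y) = 1 + (s * x + t * y) by linear_combination hst] at a
  rw [show s * (1 - x) + t * (1 - y) = 1 - (s * x + t * y) by linear_combination hst] at b
  rw [F, F, F]
  linarith

theorem F_mono {x y : ℝ} (h0 : 0 ≤ x) (h : x ≤ y) (h1 : y ≤ 1) : F x ≤ F y := by
  rcases (h0.trans h).eq_or_lt with e | e
  · rw [← e, le_antisymm (h.trans e.ge) h0]
  have hy : |y| ≤ 1 := by rwa [abs_of_pos e]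
  have a := F_scale (div_nonneg h0 e.le) ((div_le_one e).2 h) hy
  rw [div_mul_cancel₀ _ e.ne'] at a
  exact a.trans (mul_le_of_le_one_left ((by positivity : 0 ≤ y ^ 2 / 2).trans (F_ge hy))
    ((div_le_one e).2 h))

theorem step_low (hμ : ∀ θ, 0 ≤ μ θ) (hμ1 : ∑ θ, μ θ = 1) (hD : ∀ θ, IsProb (D θ)) {r : ι → ℝ}
    (hr : ∀ j, 0 ≤ r j ∧ r j ≤ 1) {a : ℝ} (h0 : 0 ≤ a) (h1 : a ≤ 1 / 2) {m : ℕ}
    (h : Sample n m → X n → ℝ) (hh : ∀ S x, |h S x| ≤ 1) {t : ℝ} (ht : 0 ≤ t)
    (hc : ∀ θ, t ≤ ∑ S, ∑ x, g a (c θ) (D θ) S x * h S x)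
    (e : Option (Fin m) → ι) (he : Injective e) (hre : ∀ k, r (e (some k)) = a) :
    Ent μ c D (update r (e none) (1 / 2)) + F (t * (1 - 2 * a)) ≤
      Ent μ c D (update r (e none) a) := by
  have hne : ∀ k, e (some k) ≠ e none := fun k hk => by simpa using he hk
  set u := Q μ c D (update r (e none) 0) with hu
  let H : (Option (Fin m) → X n × Bool) → ℝ := fun q =>
    h (fun k => q (some k)) (q none).1 * sg (q none).2
  have e1 : t ≤ ∑ p, u p * H fun k => p (e k) := by
    rw [hu, corrH c hD e he (update_self ..) (fun k => (update_of_ne (hne k) ..).trans (hre k)),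
      ← one_mul t, ← hμ1, sum_mul]
    refine sum_le_sum fun θ _ => mul_le_mul_of_nonneg_left ((hc θ).trans_eq ?_) (hμ θ)
    refine sum_congr rfl fun S _ => sum_congr rfl fun x _ => ?_
    simp only [g, H, Option.elim]
    ring
  have e2 := anti_sum (e none) u (fun p => H fun k => p (e k)) fun p => by
    simp only [H, fl_self, fl_ne (hne _), sg_not, mul_neg]
  have e3 : ∑ p, u p = 1 := (Q_sum c hD _).trans hμ1
  have e4 : ∑ p, u (fl (e none) p) = 1 := (sum_fl _ u).trans e3
  have u0 : ∀ p, 0 ≤ u p := Q_nonneg c hμ hD (upd0 hr (e none))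
  choose β b1 b2 b3 using fun p => pe_eq (u0 p) (u0 (fl (e none) p))
  have w0 : ∀ p, 0 ≤ (u p + u (fl (e none) p)) / 2 := fun p =>
    div_nonneg (add_nonneg (u0 _) (u0 _)) zero_le_two
  have w1 : ∑ p, (u p + u (fl (e none) p)) / 2 = 1 := by
    rw [← sum_div, sum_add_distrib, e3, e4]
    norm_num
  have ρ0 : 0 ≤ 1 - 2 * a := by linarith
  have b4 : ∀ p, |β p| * (1 - 2 * a) ≤ 1 := fun p => by nlinarith [abs_nonneg (β p), b1 p]
  have e5 := F_convex.map_sum_le (p := fun p => |β p| * (1 - 2 * a)) (fun p _ => w0 p) w1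
    fun p _ => ⟨by linarith [mul_nonneg (abs_nonneg (β p)) ρ0], b4 p⟩
  have e7 : t * (1 - 2 * a) ≤ ∑ p, ((u p + u (fl (e none) p)) / 2) • (|β p| * (1 - 2 * a)) := by
    have : ∑ p, (u p - u (fl (e none) p)) * (H fun k => p (e k)) ≤
        ∑ p, (u p + u (fl (e none) p)) * |β p| := sum_le_sum fun p _ => by
      rw [b2, mul_assoc]
      refine mul_le_mul_of_nonneg_left ((le_abs_self _).trans ?_) (add_nonneg (u0 _) (u0 _))
      rw [abs_mul]
      exact mul_le_of_le_one_right (abs_nonneg _) (by simp only [H, abs_mul, abs_sg, mul_one, hh])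
    refine (mul_le_mul_of_nonneg_right (show t ≤ (∑ p, (u p + u (fl (e none) p)) * |β p|) / 2 by
      linarith) ρ0).trans_eq ?_
    rw [sum_div, sum_mul]
    exact sum_congr rfl fun p _ => by rw [smul_eq_mul]; ring
  have e8 : ∑ p, ((u p + u (fl (e none) p)) / 2) • (|β p| * (1 - 2 * a)) ≤ 1 :=
    (sum_le_sum fun p _ => mul_le_of_le_one_right (w0 p) (b4 p)).trans_eq w1
  have e6 := Ent_inc μ c D r (e none) a
  rw [← hu, sum_div, sum_congr rfl (g := fun p => ((u p + u (fl (e none) p)) / 2) •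
    F (|β p| * (1 - 2 * a))) fun p _ => by
      rw [b3, ← F_abs, abs_mul, abs_of_nonneg ρ0, smul_eq_mul]; ring] at e6
  linarith [F_mono (mul_nonneg ht ρ0) e7 e8]

theorem step_cmp (hμ : ∀ θ, 0 ≤ μ θ) (hD : ∀ θ, IsProb (D θ)) {r : ι → ℝ}
    (hr : ∀ j, 0 ≤ r j ∧ r j ≤ 1) (i : ι) {η η' : ℝ} (h0 : 0 ≤ η) (h1 : η < η')
    (h2 : η' < 1 / 2) :
    G η' / G η * (Ent μ c D (update r i η) - Ent μ c D (update r i (1 / 2))) ≤
      Ent μ c D (update r i η') - Ent μ c D (update r i (1 / 2)) := by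
  rw [Ent_inc, Ent_inc, ← mul_div_assoc, mul_sum]
  exact div_le_div_of_nonneg_right (sum_le_sum fun p _ => pe_cmp h0 h1 h2
    (Q_nonneg c hμ hD (upd0 hr i) p) (Q_nonneg c hμ hD (upd0 hr i) (fl i p))) zero_le_two

variable (μ D) in
noncomputable def Vv (i : ι) (r : ι → ℝ) : ℝ := ∑ p, |Q μ c D r p - Q μ c D r (fl i p)|

theorem Vv_half {i j : ι} (h : i ≠ j) (r : ι → ℝ) :
    Vv μ c D i (update r j (1 / 2)) ≤ Vv μ c D i r := by
  have e := sum_fl j fun p => |Q μ c D r p - Q μ c D r (fl i p)|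
  have e2 : Vv μ c D i (update r j (1 / 2)) ≤ ∑ p, (|Q μ c D r p - Q μ c D r (fl i p)| +
      |Q μ c D r (fl j p) - Q μ c D r (fl i (fl j p))|) / 2 := sum_le_sum fun p _ => by
    rw [Q_half, Q_half, ← fl_comm h, ← sub_div, abs_div, abs_two, add_sub_add_comm]
    exact div_le_div_of_nonneg_right (abs_add_le _ _) zero_le_two
  rw [← sum_div, sum_add_distrib, e] at e2
  rw [Vv, Vv] at *
  linarith

theorem Vv_mono (i : ι) (a : ℝ) (N : Finset ι) :
    Vv μ c D i (update (fun j => if j ∈ N then 1 / 2 else a) i 0) ≤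
      Vv μ c D i (update (fun _ => a) i 0) := by
  induction N using Finset.induction_on with
  | empty => simp
  | insert j N _ ih =>
    rcases eq_or_ne i j with h | h
    · refine le_of_eq_of_le (congrArg _ (funext fun k => ?_)) ih
      rcases eq_or_ne k i with e | e
      · simp [e]
      · simp [e, ← h]
    · refine le_of_eq_of_le (congrArg _ (funext fun k => ?_)) ((Vv_half c h _).trans ih)
      rcases eq_or_ne k j with e | e
      · simp [e, h.symm]
      · simp [update_apply, e]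

variable (μ D) in
/-- the correlation of the best predictor with `M` examples -/
noncomputable def Bay (M : ℕ) (a : ℝ) : ℝ :=
  ∑ S : Sample n M, ∑ x, |∑ θ, μ θ * g a (c θ) (D θ) S x|

theorem sign_facts (z : ℝ) : |z| = z * Real.sign z ∧ |Real.sign z| ≤ 1 := by
  rcases lt_trichotomy z 0 with h | h | h
  · simp [Real.sign_of_neg h, abs_of_neg h]
  · simp [h]
  · simp [Real.sign_of_pos h, abs_of_pos h]

theorem Vv_le (hD : ∀ θ, IsProb (D θ)) {M : ℕ} (i : Option (Fin M)) (a : ℝ) :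
    Vv μ c D i (update (fun _ => a) i 0) ≤ 2 * Bay μ c D M a := by
  set u := Q μ c D (update (fun _ => a) i 0) with hu
  let ε : (Option (Fin M) → X n × Bool) → ℝ := fun p => Real.sign (u p - u (fl i p))
  have hε : ∀ p, ε (fl i p) = -ε p := fun p => by
    simp only [ε, fl_fl]
    rw [← Real.sign_neg, neg_sub]
  let e := Equiv.swap none i
  have e0 : e none = i := Equiv.swap_apply_left ..
  have hne : ∀ k, e (some k) ≠ i := fun k hk => by simpa using e.injective (hk.trans e0.symm)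
  have e1 : Vv μ c D i (update (fun _ => a) i 0) = 2 * ∑ p, u p * ε p := by
    rw [← anti_sum i u ε hε]
    exact sum_congr rfl fun p _ => (sign_facts _).1
  have e2 := corrH (μ := μ) c hD e e.injective (r := update (fun _ => a) i 0) (a := a)
    (by rw [e0, update_self]) (fun k => update_of_ne (hne k) ..) fun q => ε fun j => q (e.symm j)
  simp only [Equiv.apply_symm_apply] at e2
  have e3 : ∀ (S : Sample n M) (x : X n) (b : Bool), (ε fun j => (e.symm j).elim (x, b) S) =
      sg b * ε fun j => (e.symm j).elim (x, true) S := fun S x b => by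
    cases b
    · rw [sg, if_neg (by simp), neg_one_mul, ← hε]
      refine congrArg _ (funext fun j => ?_)
      obtain ⟨o, rfl⟩ := e.surjective j
      cases o with
      | none => rw [e0, fl_self, ← e0, e.symm_apply_apply]; rfl
      | some k => rw [fl_ne (hne k), e.symm_apply_apply]; rfl
    · simp [sg]
  rw [e1, hu, e2]
  refine mul_le_mul_of_nonneg_left ?_ zero_le_two
  simp only [mul_sum]
  rw [sum_comm]
  refine sum_le_sum fun S _ => ?_
  rw [sum_comm]
  refine sum_le_sum fun x _ => ?_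
  have e4 : ∑ θ, μ θ * ((∏ k, exProb a (c θ) (D θ) (S k)) * D θ x *
      ε fun j => (e.symm j).elim (x, c θ x) S) =
      (∑ θ, μ θ * g a (c θ) (D θ) S x) * ε fun j => (e.symm j).elim (x, true) S := by
    rw [sum_mul]
    refine sum_congr rfl fun θ _ => ?_
    rw [e3, g]
    ring
  rw [e4]
  refine (le_abs_self _).trans ?_
  rw [abs_mul]
  exact mul_le_of_le_one_right (abs_nonneg _) (sign_facts _).2

theorem ent_up (hμ : ∀ θ, 0 ≤ μ θ) (hD : ∀ θ, IsProb (D θ)) (M : ℕ) {a : ℝ} (h0 : 0 ≤ a)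
    (h1 : a < 1 / 2) (T : Finset (Option (Fin M))) :
    Ent μ c D (fun j => if j ∈ T then a else 1 / 2) ≤
      Ent μ c D (fun _ : Option (Fin M) => 1 / 2) + T.card * (G a * Bay μ c D M a) := by
  induction T using Finset.induction_on with
  | empty => simp
  | insert i T hi ih =>
    have hr : ∀ j, 0 ≤ (if j ∈ T then a else 1 / 2) ∧ (if j ∈ T then a else 1 / 2) ≤ 1 :=
      fun j => by split_ifs <;> constructor <;> linarith
    have e1 := Ent_inc μ c D (fun j => if j ∈ T then a else 1 / 2) i a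
    have e2 : update (fun j => if j ∈ T then a else 1 / 2) i a =
        fun j => if j ∈ insert i T then a else 1 / 2 := funext fun j => by
      by_cases h : j = i <;> simp [h]
    have e3 : update (fun j => if j ∈ T then a else 1 / 2) i (1 / 2) =
        fun j => if j ∈ T then a else 1 / 2 := funext fun j => by
      by_cases h : j = i <;> simp [h, hi]
    have e4 := sum_le_sum (s := univ) fun p _ => pe_le h0 h1.le (Q_nonneg c hμ hD (upd0 hr i) p)
      (Q_nonneg c hμ hD (upd0 hr i) (fl i p))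
    have e5 := (Vv_mono (μ := μ) (D := D) c i a Tᶜ).trans (Vv_le c hD i a)
    simp only [mem_compl, ite_not] at e5
    have e6 := mul_le_mul_of_nonneg_left e5 (G_pos h1).le
    rw [← mul_sum] at e4
    rw [e2, e3] at e1
    rw [card_insert_of_notMem hi]
    unfold Vv at e6
    push_cast
    linarith

end Pool.Agent.MP_9f8ce8_lc.Cap

end

section

/-! Lower bounds for the best predictor, and the passage from priors to one learner. -/

namespace Pool.Agent.MP_9f8ce8_lc.Cap

open Finset Real Function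

variable {n : ℕ} {ι Θ : Type} [Fintype ι] [DecidableEq ι] [Fintype Θ]

theorem mis_eq {m : ℕ} (a : ℝ) (c : X n → Bool) {D : X n → ℝ} (hD : IsProb D)
    (h : Sample n m → X n → ℝ) :
    mis a c D h = 1 / 2 - (∑ S, ∑ x, g a c D S x * (2 * h S x - 1)) / 2 := by
  have e1 : ∑ S : Sample n m, ∏ i, exProb a c D (S i) = 1 := by
    rw [← Fintype.piFinset_univ, ← prod_univ_sum]
    simp [ex_sum _ _ hD]
  have e2 : ∀ S : Sample n m, (∏ i, exProb a c D (S i)) *
      ∑ x, D x * (if c x then 1 - h S x else h S x) =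
      (∏ i, exProb a c D (S i)) / 2 - (∑ x, g a c D S x * (2 * h S x - 1)) / 2 := fun S => by
    rw [← mul_one ((∏ i, exProb a c D (S i)) / 2), ← hD.2, mul_sum, mul_sum, sum_div,
      ← sum_sub_distrib, hD.2]
    refine sum_congr rfl fun x _ => ?_
    cases e : c x <;> simp [g, sg, e] <;> ring
  simp only [mis, e2, sum_sub_distrib, ← sum_div, e1]

theorem minimax (P : Set ((X n → Bool) × (X n → ℝ))) (M : ℕ) (a v : ℝ)
    (H : ∀ (Θ : Type) [Fintype Θ] (μ : Θ → ℝ) (c : Θ → X n → Bool) (D : Θ → X n → ℝ),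
      (∀ θ, 0 ≤ μ θ) → ∑ θ, μ θ = 1 → (∀ θ, IsProb (D θ)) → (∀ θ, (c θ, D θ) ∈ P) →
      v ≤ Bay μ c D M a) : Weak a P M (v / 2) := by
  classical
  rcases le_or_gt v 0 with hv | hv
  · refine ⟨fun _ _ => 1 / 2, fun _ _ => by norm_num, fun t _ ht => ?_⟩
    rw [mis_eq _ _ ht]
    norm_num
    linarith
  have c1 : Convex ℝ {y : Sample n M × X n → ℝ | ∑ j, |y j| < v} := by
    intro y hy z hz s t hs ht hst
    have : ∑ j, |(s • y + t • z) j| ≤ s * ∑ j, |y j| + t * ∑ j, |z j| := by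
      simp only [mul_sum, ← sum_add_distrib]
      refine sum_le_sum fun j _ => (abs_add_le _ _).trans ?_
      simp [abs_mul, abs_of_nonneg hs, abs_of_nonneg ht]
    exact this.trans_lt (convex_Iio v hy hz hs ht hst)
  obtain ⟨f, u, h1, h2⟩ := geometric_hahn_banach_open c1
    (isOpen_lt (by fun_prop) continuous_const)
    (convex_convexHull ℝ {y | ∃ t ∈ P, IsProb t.2 ∧ y = fun j => g a t.1 t.2 j.1 j.2})
    (Set.disjoint_left.2 fun y hy hy' => by
      obtain ⟨Θ, _, w, z, w0, w1, hz, rfl⟩ := mem_convexHull_iff_exists_fintype.1 hy'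
      choose t tP tD tz using hz
      refine absurd hy (not_lt.2 ((H Θ w (fun θ => (t θ).1) (fun θ => (t θ).2) w0 w1 tD tP
        ).trans_eq ?_))
      simp [Bay, Fintype.sum_prod_type, tz])
  have hu : 0 < u := by simpa using h1 0 (by simpa using hv)
  let φ : Sample n M × X n → ℝ := fun j => f (Pi.single j 1)
  have hf : ∀ y, f y = ∑ j, y j * φ j := fun y => by
    conv_lhs => rw [← Finset.univ_sum_single y, map_sum]
    refine sum_congr rfl fun j _ => ?_
    rw [← smul_eq_mul, ← map_smul, ← Pi.single_smul', smul_eq_mul, mul_one]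
  have hφ : ∀ j, |φ j * v / u| ≤ 1 := fun j => by
    rw [abs_div, abs_mul, abs_of_pos hu, abs_of_pos hv, div_le_one hu]
    by_contra hc
    have hc := lt_of_not_ge hc
    have h0 : φ j ≠ 0 := fun e => by simp [e] at hc; linarith
    have := h1 (Pi.single j (u / φ j)) (by
      simp only [Set.mem_ofPred_eq]
      rw [sum_eq_single j (fun k _ hk => by simp [hk]) (by simp), Pi.single_eq_same, abs_div,
        abs_of_pos hu, div_lt_iff₀ (abs_pos.2 h0)]
      linarith)
    rw [hf, sum_eq_single j (fun k _ hk => by simp [hk]) (by simp), Pi.single_eq_same,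
      div_mul_cancel₀ _ h0] at this
    exact lt_irrefl _ this
  refine ⟨fun S x => (1 + φ (S, x) * v / u) / 2, fun S x => ?_, fun t tP tD => ?_⟩
  · have := abs_le.1 (hφ (S, x))
    constructor <;> linarith [this.1, this.2]
  · have := h2 _ (subset_convexHull ℝ _ ⟨t, tP, tD, rfl⟩)
    rw [hf, Fintype.sum_prod_type] at this
    have e : ∑ S, ∑ x, g a t.1 t.2 S x * (2 * ((1 + φ (S, x) * v / u) / 2) - 1) =
        (∑ S, ∑ x, g a t.1 t.2 S x * φ (S, x)) * v / u := by
      simp only [sum_mul, sum_div]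
      exact sum_congr rfl fun S _ => sum_congr rfl fun x _ => by ring
    have e2 : v ≤ (∑ S, ∑ x, g a t.1 t.2 S x * φ (S, x)) * v / u := by
      rw [le_div_iff₀ hu]
      nlinarith
    rw [mis_eq _ _ tD, e]
    linarith

variable {μ : Θ → ℝ} (c : Θ → X n → Bool) {D : Θ → X n → ℝ}

theorem ent_low (hμ : ∀ θ, 0 ≤ μ θ) (hμ1 : ∑ θ, μ θ = 1) (hD : ∀ θ, IsProb (D θ)) {a : ℝ}
    (h0 : 0 ≤ a) (h1 : a ≤ 1 / 2) {m : ℕ} (h : Sample n m → X n → ℝ) (hh : ∀ S x, |h S x| ≤ 1)
    {t : ℝ} (ht : 0 ≤ t) (hc : ∀ θ, t ≤ ∑ S, ∑ x, g a (c θ) (D θ) S x * h S x)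
    (hk : 0 ≤ F (t * (1 - 2 * a))) (S : Finset ι) :
    Ent μ c D (fun _ : ι => 1 / 2) ≤ Ent μ c D (fun j => if j ∈ S then a else 1 / 2) ∧
    Ent μ c D (fun _ : ι => 1 / 2) + F (t * (1 - 2 * a)) * (S.card - m) ≤
      Ent μ c D (fun j => if j ∈ S then a else 1 / 2) := by
  induction S using Finset.induction_on with
  | empty => simpa using mul_nonneg hk (Nat.cast_nonneg m)
  | insert i S hi ih =>
    have hr : ∀ j, 0 ≤ (if j ∈ S then a else 1 / 2) ∧ (if j ∈ S then a else 1 / 2) ≤ 1 :=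
      fun j => by split_ifs <;> constructor <;> linarith
    have e2 : update (fun j => if j ∈ S then a else 1 / 2) i a =
        fun j => if j ∈ insert i S then a else 1 / 2 := funext fun j => by
      by_cases h : j = i <;> simp [h]
    have e3 : update (fun j => if j ∈ S then a else 1 / 2) i (1 / 2) =
        fun j => if j ∈ S then a else 1 / 2 := funext fun j => by
      by_cases h : j = i <;> simp [h, hi]
    have e1 := step_zero c hμ hD hr i h0 h1
    rw [e2, e3] at e1
    refine ⟨ih.1.trans e1, ?_⟩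
    rw [card_insert_of_notMem hi]
    push_cast
    rcases le_or_gt m S.card with hm | hm
    · let e0 : Fin m → ι := fun k => (S.equivFin.symm (Fin.castLE hm k) : ι)
      have e0S : ∀ k, e0 k ∈ S := fun k => (S.equivFin.symm (Fin.castLE hm k)).2
      have := step_low c hμ hμ1 hD hr h0 h1 h hh ht hc (fun o => o.elim i e0)
        (fun o o' e => by
          cases o <;> cases o'
          · rfl
          · exact absurd (e0S _) (by rw [← show i = e0 _ from e]; exact hi)
          · exact absurd (e0S _) (by rw [show e0 _ = i from e]; exact hi)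
          · exact congrArg some (Fin.castLE_injective hm
              (S.equivFin.symm.injective (Subtype.ext e))))
        fun k => if_pos (e0S k)
      simp only [Option.elim] at this
      rw [e2, e3] at this
      linarith [ih.2]
    · have : (S.card : ℝ) + 1 - m ≤ 0 := by
        have : S.card + 1 ≤ m := hm
        have : ((S.card + 1 : ℕ) : ℝ) ≤ m := Nat.cast_le.2 this
        push_cast at this
        linarith
      linarith [mul_nonpos_of_nonneg_of_nonpos hk this, ih.1]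

theorem ent_mix (hμ : ∀ θ, 0 ≤ μ θ) (hD : ∀ θ, IsProb (D θ)) {η η' κ E m : ℝ} (h0 : 0 ≤ η)
    (h1 : η < η') (h2 : η' < 1 / 2) (hl : G η' / G η ≤ 1)
    (hS : ∀ S : Finset ι, E + κ * (S.card - m) ≤ Ent μ c D fun j => if j ∈ S then η else 1 / 2)
    (T S : Finset ι) (hd : Disjoint S T) :
    E + κ * (S.card + G η' / G η * T.card - m) ≤
      Ent μ c D fun j => if j ∈ T then η' else if j ∈ S then η else 1 / 2 := by
  induction T using Finset.induction_on generalizing S with
  | empty => simpa using hS S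
  | insert i T hi ih =>
    obtain ⟨hi', hd'⟩ := disjoint_insert_right.1 hd
    have := step_cmp c hμ hD (r := fun j => if j ∈ T then η' else if j ∈ S then η else 1 / 2)
      (fun j => by split_ifs <;> constructor <;> linarith) i h0 h1 h2
    have e1 : update (fun j => if j ∈ T then η' else if j ∈ S then η else 1 / 2) i η' =
        fun j => if j ∈ insert i T then η' else if j ∈ S then η else 1 / 2 := funext fun j => by
      by_cases h : j = i <;> simp [h]
    have e2 : update (fun j => if j ∈ T then η' else if j ∈ S then η else 1 / 2) i η =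
        fun j => if j ∈ T then η' else if j ∈ insert i S then η else 1 / 2 := funext fun j => by
      by_cases h : j = i <;> simp [h, hi]
    have e3 : update (fun j => if j ∈ T then η' else if j ∈ S then η else 1 / 2) i (1 / 2) =
        fun j => if j ∈ T then η' else if j ∈ S then η else 1 / 2 := funext fun j => by
      by_cases h : j = i <;> simp [h, hi, hi']
    rw [e1, e2, e3] at this
    have a1 := ih S hd'
    have a2 := ih (insert i S) (disjoint_insert_left.2 ⟨hi, hd'⟩)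
    rw [card_insert_of_notMem hi'] at a2
    rw [card_insert_of_notMem hi]
    push_cast at a2 ⊢
    have l0 : 0 ≤ G η' / G η := (div_pos (G_pos h2) (G_pos (h1.trans h2))).le
    nlinarith [mul_le_mul_of_nonneg_left a2 l0, mul_le_mul_of_nonneg_left a1 (sub_nonneg.2 hl)]

theorem boost {η η' : ℝ} (h0 : 0 ≤ η) (h1 : η < η') (h2 : η' < 1 / 2)
    (P : Set ((X n → Bool) × (X n → ℝ))) (m M : ℕ) {γ : ℝ} (hγ : 0 ≤ γ) (hW : Weak η P m γ) :
    Weak η' P M ((1 - G η / G η' * m / (M + 1)) * (G (1 / 2 - (1 - 2 * η) * γ) / (2 * G η))) := by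
  obtain ⟨h, hh, hP⟩ := hW
  have g1 := G_pos (h1.trans h2)
  have g2 := G_pos h2
  have hl : G η' / G η ≤ 1 := by
    rw [div_le_one g1, G, G]
    exact sub_le_sub_left (binEntropy_strictMonoOn ⟨h0, by linarith⟩ ⟨by linarith, by linarith⟩
      h1).le _
  have key := minimax P M η'
    (2 * ((1 - G η / G η' * m / (M + 1)) * (G (1 / 2 - (1 - 2 * η) * γ) / (2 * G η))))
    fun Θ _ μ c D hμ hμ1 hD hc => ?_
  · rwa [mul_div_cancel_left₀ _ two_ne_zero] at key
  have e0 : F (2 * γ * (1 - 2 * η)) = G (1 / 2 - (1 - 2 * η) * γ) := by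
    rw [G_eq]
    congr 1
    ring
  have hk : 0 ≤ G (1 / 2 - (1 - 2 * η) * γ) := sub_nonneg.2 binEntropy_le_log_two
  have a1 := ent_mix (ι := Option (Fin M)) c hμ hD h0 h1 h2 hl (fun S => (ent_low c hμ hμ1 hD h0
    (h1.trans h2).le (fun S x => 2 * h S x - 1)
    (fun S x => abs_le.2 ⟨by linarith [(hh S x).1], by linarith [(hh S x).2]⟩) (t := 2 * γ)
    (by linarith) (fun θ => by
      have := hP _ (hc θ) (hD θ)
      rw [mis_eq _ _ (hD θ)] at this
      linarith) (e0 ▸ hk) S).2) univ ∅ (by simp)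
  have a2 := ent_up c hμ hD M (h0.trans h1.le) h2 univ
  simp only [mem_univ, if_true, card_univ, Fintype.card_option, Fintype.card_fin, card_empty,
    Nat.cast_zero, zero_add, Nat.cast_add, Nat.cast_one, e0] at a1 a2
  have hM : (0 : ℝ) < M + 1 := by positivity
  refine le_of_mul_le_mul_left ?_ (mul_pos hM g2)
  have e : (M + 1) * G η' *
      (2 * ((1 - G η / G η' * m / (M + 1)) * (G (1 / 2 - (1 - 2 * η) * γ) / (2 * G η)))) =
      G (1 / 2 - (1 - 2 * η) * γ) * (G η' / G η * (M + 1) - m) := by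
    field_simp
  rw [e]
  linarith

end Pool.Agent.MP_9f8ce8_lc.Cap

end

section

/-! Finite classes are learnable as soon as the capacity of the sample exceeds their entropy. -/

namespace Pool.Agent.MP_9f8ce8_lc.Cap

open Finset Real Function

variable {n : ℕ} {ι Θ : Type} [Fintype ι] [DecidableEq ι] [Fintype Θ]

theorem Weak.mono {a γ γ' : ℝ} {P : Set ((X n → Bool) × (X n → ℝ))} {m : ℕ} (h : Weak a P m γ)
    (h' : γ' ≤ γ) : Weak a P m γ' :=
  h.imp fun _ e => ⟨e.1, fun t tP tD => (e.2 t tP tD).trans (by linarith)⟩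

theorem ml_sum {J : Type} [Fintype J] [Nonempty J] (a : J → ℝ) (ha : ∀ s, 0 ≤ a s) :
    ∑ s, a s * log (a s) ≤ (∑ s, a s) * log (∑ s, a s) ∧
    (∑ s, a s) * log (∑ s, a s) ≤ ∑ s, a s * log (a s) + (∑ s, a s) * log (Fintype.card J) := by
  have hJ : (0 : ℝ) < Fintype.card J := Nat.cast_pos.2 Fintype.card_pos
  have hle : ∀ s, a s ≤ ∑ s, a s := fun s => single_le_sum (fun s _ => ha s) (mem_univ s)
  constructor
  · rw [sum_mul]
    refine sum_le_sum fun s _ => ?_
    rcases (ha s).eq_or_lt with e | e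
    · simp [← e]
    · exact mul_le_mul_of_nonneg_left (log_le_log e (hle s)) (ha s)
  · have : ∀ s, a s - (∑ s, a s) / Fintype.card J ≤
        a s * log (a s) + a s * log (Fintype.card J) - a s * log (∑ s, a s) := fun s => by
      rcases (ha s).eq_or_lt with e | e
      · simpa [← e] using div_nonneg (e.le.trans (hle s)) hJ.le
      · have hA := e.trans_le (hle s)
        have := log_le_sub_one_of_pos (div_pos hA (mul_pos e hJ))
        rw [log_div hA.ne' (mul_pos e hJ).ne', log_mul e.ne' hJ.ne'] at this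
        have e2 : a s * ((∑ s, a s) / (a s * Fintype.card J)) = (∑ s, a s) / Fintype.card J := by
          field_simp
        nlinarith [mul_le_mul_of_nonneg_left this e.le]
    have := sum_le_sum (s := univ) fun s _ => this s
    rw [sum_sub_distrib, sum_sub_distrib, sum_add_distrib, sum_const, card_univ, nsmul_eq_mul,
      mul_div_cancel₀ _ hJ.ne', ← sum_mul, ← sum_mul] at this
    linarith

theorem ent_pure {μ : Θ → ℝ} (c : Θ → X n → Bool) {D : Θ → X n → ℝ} (hμ : ∀ θ, 0 ≤ μ θ)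
    (hD : ∀ θ, IsProb (D θ)) {a : ℝ} (h0 : 0 ≤ a) (h1 : a < 1 / 2) (c0 : X n → Bool)
    (hc : ∀ θ, μ θ = 0 ∨ c θ = c0) (T : Finset ι) :
    Ent μ c D (fun j => if j ∈ T then a else 1 / 2) =
      Ent μ c D (fun _ : ι => 1 / 2) + T.card * (G a * ∑ θ, μ θ) := by
  induction T using Finset.induction_on with
  | empty => simp
  | insert i T hi ih =>
    have hr : ∀ j, 0 ≤ (if j ∈ T then a else 1 / 2) ∧ (if j ∈ T then a else 1 / 2) ≤ 1 :=
      fun j => by split_ifs <;> constructor <;> linarith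
    have e1 := Ent_inc μ c D (fun j => if j ∈ T then a else 1 / 2) i a
    have e2 : update (fun j => if j ∈ T then a else 1 / 2) i a =
        fun j => if j ∈ insert i T then a else 1 / 2 := funext fun j => by
      by_cases h : j = i <;> simp [h]
    have e3 : update (fun j => if j ∈ T then a else 1 / 2) i (1 / 2) =
        fun j => if j ∈ T then a else 1 / 2 := funext fun j => by
      by_cases h : j = i <;> simp [h, hi]
    have z : ∀ p : ι → X n × Bool, (p i).2 ≠ c0 (p i).1 →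
        Q μ c D (update (fun j => if j ∈ T then a else 1 / 2) i 0) p = 0 := fun p hp => by
      rw [Q_split]
      refine sum_eq_zero fun θ _ => (hc θ).elim (fun e => by rw [e, zero_mul]) fun e => ?_
      simp [exProb, e, hp]
    rw [e2, e3, sum_congr rfl fun p _ => pe_pure a (Q_nonneg c hμ hD (upd0 hr i) p)
      (Q_nonneg c hμ hD (upd0 hr i) (fl i p)) (by
        by_cases hp : (p i).2 = c0 (p i).1
        · exact Or.inr (z _ (by simp [fl_self, hp]))
        · exact Or.inl (z _ hp)), ← mul_sum, sum_add_distrib, sum_fl, Q_sum c hD] at e1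
    rw [card_insert_of_notMem hi]
    push_cast
    linarith

theorem occam {a : ℝ} (h0 : 0 ≤ a) (h1 : a < 1 / 2) {J : Type} [Fintype J] [Nonempty J]
    (cs : J → X n → Bool) (M : ℕ) :
    Weak a (Set.range cs ×ˢ Set.univ) M ((1 - log (Fintype.card J) / ((M + 1) * G a)) / 2) := by
  classical
  refine minimax _ M a _ fun Θ _ μ c D hμ hμ1 hD hc => ?_
  choose cl hcl using fun θ => (hc θ).1
  let ν : J → Θ → ℝ := fun s θ => if cl θ = s then μ θ else 0
  have hν : ∀ s θ, 0 ≤ ν s θ := fun s θ => by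
    simp only [ν]
    split_ifs
    exacts [hμ θ, le_rfl]
  have hs : ∀ θ, ∑ s, ν s θ = μ θ := fun θ => by simp [ν]
  have hQ : ∀ (r : Option (Fin M) → ℝ) p, Q μ c D r p = ∑ s, Q (ν s) c D r p := fun r p => by
    simp only [Q]
    rw [sum_comm]
    exact sum_congr rfl fun θ _ => by rw [← sum_mul, hs]
  have e1 : ∑ s, Ent (ν s) c D (fun _ : Option (Fin M) => a) ≤
      Ent μ c D fun _ : Option (Fin M) => a := by
    simp only [Ent, hQ]
    rw [sum_comm]
    exact sum_le_sum fun p _ => (ml_sum _ fun s =>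
      Q_nonneg c (hν s) hD (fun _ => ⟨h0, by linarith⟩) p).1
  have e2 : Ent μ c D (fun _ : Option (Fin M) => 1 / 2) ≤
      ∑ s, Ent (ν s) c D (fun _ : Option (Fin M) => 1 / 2) + log (Fintype.card J) := by
    have e : log (Fintype.card J) = (∑ p, Q μ c D (fun _ : Option (Fin M) => (1 / 2 : ℝ)) p) *
        log (Fintype.card J) := by rw [Q_sum c hD, hμ1, one_mul]
    rw [e]
    simp only [Ent, hQ]
    rw [sum_comm (s := (univ : Finset J)), sum_mul, ← sum_add_distrib]
    exact sum_le_sum fun p _ => (ml_sum _ fun s =>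
      Q_nonneg c (hν s) hD (fun _ => by norm_num) p).2
  have e3 := sum_congr (rfl : (univ : Finset J) = univ) fun s _ =>
    ent_pure c (hν s) hD h0 h1 (cs s) (fun θ => by
      by_cases h : cl θ = s
      · exact Or.inr (by rw [← h]; exact (hcl θ).symm)
      · exact Or.inl (if_neg h)) (univ : Finset (Option (Fin M)))
  have e4 := ent_up c hμ hD M h0 h1 univ
  rw [sum_add_distrib, ← mul_sum, ← mul_sum, sum_comm] at e3
  simp only [mem_univ, if_true, card_univ, Fintype.card_option, Fintype.card_fin, Nat.cast_add,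
    Nat.cast_one, hs, hμ1] at e3 e4
  have hM : (0 : ℝ) < (M + 1) * G a := mul_pos (by positivity) (G_pos h1)
  rw [sub_le_iff_le_add, ← sub_le_iff_le_add', le_div_iff₀ hM]
  linarith

end Pool.Agent.MP_9f8ce8_lc.Cap

end

section

/-! Below capacity, parity functions cannot be predicted. -/

namespace Pool.Agent.MP_9f8ce8_lc.Cap

open Finset Real Function Filter Topology

variable {n : ℕ}

def ch (s x : X n) : ℝ := ∏ i, if s i && x i then -1 else 1

open Classical in
noncomputable def par (s x : X n) : Bool := decide (ch s x = 1)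

theorem sg_par (s x : X n) : sg (par s x) = ch s x := by
  have : ch s x * ch s x = 1 := by
    rw [ch, ← prod_mul_distrib]
    exact prod_eq_one fun i _ => by split_ifs <;> norm_num
  rcases mul_self_eq_one_iff.1 this with h | h
  · simp [sg, par, h]
  · norm_num [sg, par, h]

theorem ch_orth (s s' : X n) : ∑ x, ch s x * ch s' x = if s = s' then 2 ^ n else 0 := by
  simp only [ch, ← prod_mul_distrib]
  rw [← Fintype.piFinset_univ, ← prod_univ_sum (fun _ => univ) fun i b =>
    (if s i && b then (-1 : ℝ) else 1) * if s' i && b then -1 else 1]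
  split_ifs with h
  · rw [prod_congr rfl (g := fun _ => (2 : ℝ)) fun i _ => by cases h' : s i <;> norm_num [← h, h']]
    simp
  · obtain ⟨i, hi⟩ := Function.ne_iff.1 h
    exact prod_eq_zero (mem_univ i) (by cases h1 : s i <;> cases h2 : s' i <;> simp_all)

theorem ch_sq (L : X n → ℝ) : ∑ x, (∑ s, L s * ch s x) ^ 2 = 2 ^ n * ∑ s, L s ^ 2 := by
  have : ∀ x, (∑ s, L s * ch s x) ^ 2 = ∑ s, ∑ s', L s * L s' * (ch s x * ch s' x) := fun x => by
    rw [sq, sum_mul_sum]
    exact sum_congr rfl fun s _ => sum_congr rfl fun s' _ => by ring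
  simp only [this]
  rw [sum_comm, mul_sum]
  refine sum_congr rfl fun s _ => ?_
  rw [sum_comm]
  simp only [← mul_sum, ch_orth]
  simp [sq, mul_comm]

theorem unif_prob : IsProb fun _ : X n => (1 : ℝ) / 2 ^ n := ⟨fun _ => by positivity, by simp⟩

theorem samp_sum {M : ℕ} (f : X n × Bool → ℝ) :
    ∑ S : Sample n M, ∏ k, f (S k) = (∑ y, f y) ^ M := by
  rw [← Fintype.piFinset_univ, ← prod_univ_sum]
  simp

theorem tail {a θ Γ τ : ℝ} (h0 : 0 < a) (h1 : a < 1 / 2) (hθ : 0 < θ) (hτ : 0 < τ) (M : ℕ)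
    (hΓ : (1 - a) * exp (θ * log (2 * (1 - a))) + a * exp (θ * log (2 * a)) ≤ exp Γ)
    (c : X n → Bool) {D : X n → ℝ} (hD : IsProb D) :
    ∑ S : Sample n M, (if ∏ k, (if (S k).2 = c (S k).1 then 2 * (1 - a) else 2 * a) ≤ τ then 0
      else ∏ k, exProb a c D (S k)) ≤ exp (M * Γ - θ * log τ) := by
  let ρ : X n × Bool → ℝ := fun y => if y.2 = c y.1 then 2 * (1 - a) else 2 * a
  have hρ : ∀ y, 0 < ρ y := fun y => by
    simp only [ρ]
    split_ifs <;> linarith
  have e1 : ∑ y, exProb a c D y * exp (θ * log (ρ y)) =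
      (1 - a) * exp (θ * log (2 * (1 - a))) + a * exp (θ * log (2 * a)) := by
    rw [Fintype.sum_prod_type, ← one_mul (_ + _), ← hD.2, sum_mul, hD.2]
    refine sum_congr rfl fun x _ => ?_
    cases h : c x <;> simp [exProb, ρ, h] <;> ring
  have e2 : 0 ≤ ∑ y, exProb a c D y * exp (θ * log (ρ y)) := sum_nonneg fun y _ =>
    mul_nonneg (ex_nonneg h0.le (by linarith) c hD y) (exp_pos _).le
  calc _ ≤ ∑ S : Sample n M, (∏ k, exProb a c D (S k) * exp (θ * log (ρ (S k)))) *
        exp (-(θ * log τ)) := sum_le_sum fun S _ => by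
        have p := prod_nonneg (s := univ) fun k _ => ex_nonneg h0.le (by linarith) c hD (S k)
        rw [prod_mul_distrib, ← exp_sum, ← mul_sum, ← log_prod fun k _ => (hρ (S k)).ne',
          mul_assoc, ← exp_add]
        split_ifs with h
        · exact mul_nonneg p (exp_pos _).le
        · refine le_mul_of_one_le_right p (one_le_exp ?_)
          nlinarith [log_le_log hτ (lt_of_not_ge h).le]
    _ ≤ _ := by
        rw [← sum_mul, samp_sum fun y => exProb a c D y * exp (θ * log (ρ y)), sub_eq_add_neg,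
          exp_add, exp_nat_mul]
        exact mul_le_mul_of_nonneg_right (pow_le_pow_left₀ e2 (e1.trans_le hΓ) M) (exp_pos _).le

theorem hard {a θ Γ δ γ : ℝ} (h0 : 0 < a) (h1 : a < 1 / 2) (hθ : 0 < θ) (hδ : 0 < δ) (M : ℕ)
    (hΓ : (1 - a) * exp (θ * log (2 * (1 - a))) + a * exp (θ * log (2 * a)) ≤ exp Γ)
    (hW : Weak a (Set.range par ×ˢ {fun _ : X n => (1 : ℝ) / 2 ^ n}) M γ) :
    2 * γ ≤ δ + exp (M * Γ - θ * log (2 ^ n * δ ^ 2)) := by
  obtain ⟨h, hh, hP⟩ := hW
  have hN : (0 : ℝ) < 2 ^ n := by positivity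
  set N : ℝ := 2 ^ n with hNe
  set w : ℝ := (1 / N / 2) ^ M with hwe
  have hw : 0 < w := by positivity
  let L : X n → Sample n M → ℝ := fun s S => ∏ k, exProb a (par s) (fun _ => 1 / N) (S k)
  let R : X n → Sample n M → ℝ := fun s S =>
    ∏ k, if (S k).2 = par s (S k).1 then 2 * (1 - a) else 2 * a
  let L1 : X n → Sample n M → ℝ := fun s S => if R s S ≤ N * δ ^ 2 then L s S else 0
  let L2 : X n → Sample n M → ℝ := fun s S => if R s S ≤ N * δ ^ 2 then 0 else L s S
  have hL : ∀ s S, 0 ≤ L s S := fun s S =>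
    prod_nonneg fun k _ => ex_nonneg h0.le (by linarith) _ unif_prob _
  have hLs : ∀ s, ∑ S, L s S = 1 := fun s => by
    rw [samp_sum, ex_sum _ _ unif_prob, one_pow]
  have hLR : ∀ s S, L s S = w * R s S := fun s S => by
    rw [hwe, ← Fin.prod_const, ← prod_mul_distrib]
    refine prod_congr rfl fun k _ => ?_
    rw [exProb]
    split_ifs <;> ring
  have hws : ∑ _S : Sample n M, w = 1 := by
    have e : ∑ _y : X n × Bool, 1 / N / 2 = 1 := by
      simp only [sum_const, card_univ, Fintype.card_prod, Fintype.card_bool, Fintype.card_pi,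
        prod_const, Fintype.card_fin, nsmul_eq_mul, Nat.cast_mul, Nat.cast_pow, Nat.cast_ofNat,
        ← hNe]
      field_simp
    rw [hwe, ← Fin.prod_const, samp_sum fun _ => 1 / N / 2, e, one_pow]
  have hcard : ∀ z : ℝ, ∑ _x : X n, z = N * z := fun z => by simp [hNe]
  have hh' : ∀ S x, |2 * h S x - 1| ≤ 1 := fun S x =>
    abs_le.2 ⟨by linarith [(hh S x).1], by linarith [(hh S x).2]⟩
  have e1 : ∀ s, 2 * γ ≤ ∑ S, ∑ x, L1 s S * ch s x * ((2 * h S x - 1) / N) +
      exp (M * Γ - θ * log (N * δ ^ 2)) := fun s => by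
    have a1 := hP (par s, fun _ => 1 / N) ⟨⟨s, rfl⟩, rfl⟩ unif_prob
    rw [mis_eq _ _ unif_prob] at a1
    have a2 : ∑ S, L2 s S ≤ _ := tail h0 h1 hθ (τ := N * δ ^ 2) (by positivity) M hΓ (par s)
      unif_prob
    have a3 : ∑ S, ∑ x, g a (par s) (fun _ => 1 / N) S x * (2 * h S x - 1) ≤
        ∑ S, (∑ x, L1 s S * ch s x * ((2 * h S x - 1) / N) + L2 s S) := sum_le_sum fun S _ => by
      rw [← mul_div_cancel₀ (L2 s S) hN.ne', ← hcard, ← sum_add_distrib]
      refine sum_le_sum fun x _ => ?_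
      have b : sg (par s x) * (2 * h S x - 1) ≤ 1 :=
        (le_abs_self _).trans (by rw [abs_mul, abs_sg, one_mul]; exact hh' S x)
      have b2 := mul_le_mul_of_nonneg_left b (div_nonneg (hL s S) hN.le)
      simp only [g, L1, L2, ← sg_par]
      split_ifs
      · exact le_of_eq (by simp only [L]; ring)
      · exact le_of_eq_of_le (by simp only [L]; ring) (b2.trans_eq (by ring))
    rw [sum_add_distrib] at a3
    linarith
  have e2 : ∀ S, ∑ x, ∑ s, L1 s S * ch s x * ((2 * h S x - 1) / N) ≤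
      N * δ / 2 * w + δ / 2 * ∑ s, L s S := fun S => by
    have a1 : ∀ x, ∑ s, L1 s S * ch s x * ((2 * h S x - 1) / N) ≤
        δ * w / 2 + (∑ s, L1 s S * ch s x) ^ 2 / (2 * N * N * δ * w) := fun x => by
      rw [← sum_mul]
      generalize ∑ s, L1 s S * ch s x = z
      have b1 : (2 * h S x - 1) ^ 2 ≤ 1 := (sq_le_one_iff_abs_le_one _).2 (hh' S x)
      generalize 2 * h S x - 1 = e at b1
      rw [← sub_nonneg, show δ * w / 2 + z ^ 2 / (2 * N * N * δ * w) - z * (e / N) =
        ((z - N * δ * w * e) ^ 2 + (N * δ * w) ^ 2 * (1 - e ^ 2)) / (2 * N * N * δ * w) by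
          field_simp; ring]
      exact div_nonneg (add_nonneg (sq_nonneg _) (mul_nonneg (sq_nonneg _) (sub_nonneg.2 b1)))
        (by positivity)
    have a2 : ∑ s, L1 s S ^ 2 ≤ N * δ ^ 2 * w * ∑ s, L s S := by
      rw [mul_sum]
      refine sum_le_sum fun s _ => ?_
      simp only [L1]
      split_ifs with hR
      · rw [sq]
        refine mul_le_mul_of_nonneg_right ?_ (hL s S)
        rw [hLR, mul_comm]
        exact mul_le_mul_of_nonneg_right hR hw.le
      · rw [zero_pow two_ne_zero]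
        exact mul_nonneg (by positivity) (hL s S)
    refine (sum_le_sum fun x _ => a1 x).trans ?_
    rw [sum_add_distrib, hcard, ← sum_div, ch_sq, ← hNe]
    refine add_le_add (le_of_eq (by ring)) ?_
    rw [div_le_iff₀ (by positivity)]
    exact (mul_le_mul_of_nonneg_left a2 hN.le).trans_eq (by ring)
  have e3 := sum_le_sum (s := univ) fun s _ => e1 s
  have e4 := sum_le_sum (s := univ) fun S _ => e2 S
  rw [sum_add_distrib, hcard, hcard, sum_comm] at e3
  rw [sum_add_distrib, ← mul_sum, ← mul_sum, hws, sum_comm (f := fun S s => L s S)] at e4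
  simp only [hLs, hcard] at e4
  have e5 : ∑ S, ∑ s, ∑ x, L1 s S * ch s x * ((2 * h S x - 1) / N) =
      ∑ S, ∑ x, ∑ s, L1 s S * ch s x * ((2 * h S x - 1) / N) :=
    sum_congr rfl fun S _ => sum_comm
  refine le_of_mul_le_mul_left ?_ hN
  linarith

theorem ex_theta {a ε : ℝ} (hε : 0 < ε) (h0 : 0 < a) (h1 : a < 1 / 2) : ∃ θ, 0 < θ ∧
    (1 - a) * exp (θ * log (2 * (1 - a))) + a * exp (θ * log (2 * a)) ≤ exp (θ * (G a + ε)) := by
  have k : ∀ l : ℝ, HasDerivAt (fun θ => exp (θ * l)) l 0 := fun l => by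
    simpa using ((hasDerivAt_id (0 : ℝ)).mul_const l).exp
  have d := (k (G a + ε)).fun_sub (((k (log (2 * (1 - a)))).const_mul (1 - a)).fun_add
    ((k (log (2 * a))).const_mul a))
  have e : G a + ε - ((1 - a) * log (2 * (1 - a)) + a * log (2 * a)) = ε := by
    rw [G, binEntropy_eq_negMulLog_add_negMulLog_one_sub, negMulLog, negMulLog,
      log_mul two_ne_zero h0.ne', log_mul two_ne_zero (by linarith)]
    ring
  rw [e] at d
  obtain ⟨θ, p1, p2⟩ := ((d.tendsto_slope_zero_right.eventually (lt_mem_nhds hε)).and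
    self_mem_nhdsWithin).exists
  have p3 : 0 < θ := p2
  simp only [zero_add, zero_mul, exp_zero, smul_eq_mul, mul_one] at p1
  have := (mul_pos_iff_of_pos_left (inv_pos.2 p3)).1 p1
  exact ⟨θ, p3, by linarith⟩

theorem sharp {η η' K : ℝ} (h0 : 0 ≤ η) (h1 : η < η') (h2 : η' < 1 / 2) (hK : K < G η / G η') :
    ∃ a b γ : ℝ, 0 < b ∧ 0 < γ ∧ ∀ᶠ n in atTop, ∃ (C : Set (X n → Bool)) (m : ℕ),
      (m : ℝ) ≤ a * n ∧ Weak η (C ×ˢ Set.univ) m γ ∧ ∀ M : ℕ, (M : ℝ) ≤ K * m →
        ¬ Weak η' (C ×ˢ {fun _ => 1 / 2 ^ n}) M (exp (-b * n)) := by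
  have g1 := G_pos (h1.trans h2)
  have g2 := G_pos h2
  have l2 : 0 < log 2 := log_pos one_lt_two
  obtain ⟨K0, k0, k1, k2⟩ : ∃ K0, 0 ≤ K0 ∧ K ≤ K0 ∧ K0 * G η' < G η :=
    ⟨max K 0, le_max_right _ _, le_max_left _ _, (lt_div_iff₀ g2).1 (max_lt hK (div_pos g1 g2))⟩
  obtain ⟨ε, hε, hA⟩ : ∃ ε, 0 < ε ∧ K0 * (G η' + ε) < G η := by
    refine ⟨(G η - K0 * G η') / (K0 + 1), div_pos (by linarith) (by linarith), ?_⟩
    have : K0 * ((G η - K0 * G η') / (K0 + 1)) < G η - K0 * G η' := by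
      rw [← mul_div_assoc, div_lt_iff₀ (by linarith)]
      nlinarith
    linarith
  obtain ⟨θ, hθ, hΓ⟩ := ex_theta hε (h0.trans_lt h1) h2
  set A := K0 * (G η' + ε) with hAe
  have hA0 : 0 ≤ A := mul_nonneg k0 (by linarith)
  have hs : 0 < G η + A := by linarith
  set κ := 2 * log 2 / (G η + A) with hκ
  set d := log 2 - A * κ with hd
  have d0 : 0 < d := by
    rw [hd, hκ, sub_pos, ← mul_div_assoc, div_lt_iff₀ hs]
    nlinarith
  have κ0 : 0 < κ := by positivity
  have κ1 : log 2 / (κ * G η) < 1 := by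
    rw [div_lt_one (by positivity), hκ, div_mul_eq_mul_div, lt_div_iff₀ hs]
    nlinarith
  refine ⟨κ + 1, θ * d / (4 * (1 + θ)), (1 - log 2 / (κ * G η)) / 2, by positivity,
    by linarith, ?_⟩
  filter_upwards [eventually_ge_atTop 1, (tendsto_natCast_atTop_atTop (R := ℝ)).eventually
    (eventually_ge_atTop (2 * A / d))] with n n1 n2
  have n1' : (1 : ℝ) ≤ n := by exact_mod_cast n1
  have m1 := Nat.le_ceil (κ * n)
  have m2 := (Nat.ceil_lt_add_one (a := κ * n) (by positivity)).le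
  refine ⟨Set.range par, ⌈κ * n⌉₊, by linarith, (occam h0 (h1.trans h2) par _).mono ?_,
    fun M hM hW => ?_⟩
  · have e : log (Fintype.card (X n)) = n * log 2 := by simp
    have : n * log 2 / ((⌈κ * n⌉₊ + 1) * G η) ≤ log 2 / (κ * G η) := by
      rw [div_le_div_iff₀ (by positivity) (by positivity)]
      nlinarith [mul_pos l2 g1]
    rw [e]
    linarith
  · have a1 := hard (δ := exp (-(θ * d / (4 * (1 + θ))) * n)) (h0.trans_lt h1) h2 hθ (exp_pos _)
      M hΓ hW
    rw [log_mul (by positivity) (by positivity), log_pow, log_pow, log_exp] at a1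
    have a2 : M * (G η' + ε) ≤ A * (κ * n + 1) := by
      have : (M : ℝ) ≤ K0 * (κ * n + 1) := hM.trans (mul_le_mul k1 m2 (Nat.cast_nonneg _) k0)
      nlinarith
    have a3 : 2 * A ≤ n * d := (div_le_iff₀ d0).1 n2
    set b := θ * d / (4 * (1 + θ)) with hb
    have a4 : b * (4 * (1 + θ)) = θ * d := div_mul_cancel₀ _ (by positivity)
    have b0 : 0 < b := by positivity
    have a5 : M * (θ * (G η' + ε)) - θ * (n * log 2 + (2 : ℕ) * (-b * n)) < -b * n := by
      have c1 := mul_le_mul_of_nonneg_left a2 hθ.le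
      have c2 := mul_le_mul_of_nonneg_left a3 hθ.le
      have c3 : θ * (n * log 2) = θ * (n * d) + θ * (A * κ * n) := by
        rw [hd]
        ring
      have c4 : θ * (n * d) = 4 * (b * n) + 4 * (θ * (b * n)) := by
        rw [mul_left_comm, ← a4]
        ring
      have c5 : 0 < b * n := by positivity
      push_cast
      nlinarith
    linarith [exp_lt_exp.2 a5]

end Pool.Agent.MP_9f8ce8_lc.Cap

end
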