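import Mathlib
import Pool.Agent.MP_9f8ce8_lc.Defs

section

namespace Pool.Agent.MP_9f8ce8_lc

open Finset Real

lemma mgf_le {μ δ : ℝ} (hμ0 : 0 ≤ μ) (hμ1 : μ ≤ 1) (hδ0 : 0 ≤ δ) (hδ1 : δ ≤ 2) :
    (1 + μ * (exp (δ / 2) - 1)) * exp (-(δ / 2) * (μ + δ)) ≤ exp (-(δ ^ 2 / 4)) := by
  have h1 : |exp (δ / 2) - 1 - δ / 2| ≤ (δ / 2) ^ 2 :=
    Real.abs_exp_sub_one_sub_id_le (by rw [abs_le]; constructor <;> linarith)
  have h2 : exp (δ / 2) - 1 ≤ δ / 2 + (δ / 2) ^ 2 := by
    have := (abs_le.1 h1).2; linarith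
  have h3 : 1 + μ * (exp (δ / 2) - 1) ≤ exp (μ * (δ / 2) + (δ / 2) ^ 2) := by
    have h4 : μ * (exp (δ / 2) - 1) ≤ μ * (δ / 2 + (δ / 2) ^ 2) :=
      mul_le_mul_of_nonneg_left h2 hμ0
    have h5 : μ * (δ / 2) ^ 2 ≤ (δ / 2) ^ 2 := by nlinarith [sq_nonneg (δ / 2)]
    have := Real.add_one_le_exp (μ * (δ / 2) + (δ / 2) ^ 2)
    nlinarith
  calc (1 + μ * (exp (δ / 2) - 1)) * exp (-(δ / 2) * (μ + δ))
      ≤ exp (μ * (δ / 2) + (δ / 2) ^ 2) * exp (-(δ / 2) * (μ + δ)) :=
        mul_le_mul_of_nonneg_right h3 (exp_pos _).le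
    _ = exp (-(δ ^ 2 / 4)) := by rw [← Real.exp_add]; congr 1; ring

lemma ind_le_prod {m : ℕ} (g : Fin m → Prop) [DecidablePred g] {lam : ℝ} (τ : ℝ)
    (hl : 0 ≤ lam) :
    (if τ * m ≤ ((univ.filter g).card : ℝ) then (1 : ℝ) else 0) ≤
      (∏ i, (if g i then exp lam else 1)) * exp (-lam * τ) ^ m := by
  have h1 : (∏ i, (if g i then exp lam else 1)) = exp (lam * ((univ.filter g).card : ℝ)) := by
    rw [Finset.prod_ite, Finset.prod_const, Finset.prod_const_one, mul_one, ← Real.exp_nat_mul]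
    congr 1; ring
  rw [h1, ← Real.exp_nat_mul, ← Real.exp_add]
  split_ifs with h
  · apply Real.one_le_exp
    nlinarith
  · exact (exp_pos _).le

lemma sum_prod_coord {Y : Type} [Fintype Y] {m : ℕ} (φ : Fin m → Y → ℝ) :
    ∑ S : Fin m → Y, ∏ i, φ i (S i) = ∏ i, ∑ y, φ i y := by
  rw [Finset.prod_univ_sum]; rfl

lemma sum_prod_one {Y : Type} [Fintype Y] {m : ℕ} (P : Y → ℝ) (hP1 : ∑ y, P y = 1) :
    ∑ S : Fin m → Y, ∏ i, P (S i) = 1 := by
  rw [sum_prod_coord (fun _ y => P y)]; simp [hP1]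

lemma chernoff {Y : Type} [Fintype Y] {m : ℕ} (P : Y → ℝ) (hP : ∀ y, 0 ≤ P y)
    (hP1 : ∑ y, P y = 1) (g : Y → Prop) [DecidablePred g] {μ δ : ℝ}
    (hμ : ∑ y, (if g y then P y else 0) ≤ μ) (hμ1 : μ ≤ 1) (hδ0 : 0 ≤ δ) (hδ1 : δ ≤ 2) :
    ∑ S : Fin m → Y, (∏ i, P (S i)) *
      (if (μ + δ) * m ≤ ((univ.filter fun i => g (S i)).card : ℝ) then (1 : ℝ) else 0) ≤
      exp (-(δ ^ 2 / 4)) ^ m := by
  have hμ0 : 0 ≤ μ := le_trans (Finset.sum_nonneg fun y _ => by split_ifs <;> simp [hP y]) hμ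
  have hz : 0 ≤ exp (δ / 2) - 1 := by
    have := Real.one_le_exp (show 0 ≤ δ / 2 by linarith); linarith
  calc _ ≤ ∑ S : Fin m → Y, (∏ i, P (S i)) *
        ((∏ i, (if g (S i) then exp (δ / 2) else 1)) * exp (-(δ / 2) * (μ + δ)) ^ m) := by
        apply Finset.sum_le_sum; intro S _
        apply mul_le_mul_of_nonneg_left _ (Finset.prod_nonneg fun i _ => hP _)
        exact ind_le_prod (fun i => g (S i)) (μ + δ) (by linarith)
    _ = (∑ y, P y * (if g y then exp (δ / 2) else 1)) ^ m * exp (-(δ / 2) * (μ + δ)) ^ m := by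
        have := sum_prod_coord (m := m) (fun _ y => P y * (if g y then exp (δ / 2) else 1))
        simp only [Finset.prod_const, Finset.card_univ, Fintype.card_fin] at this
        rw [← this, Finset.sum_mul]
        apply Finset.sum_congr rfl; intro S _
        rw [Finset.prod_mul_distrib]; ring
    _ ≤ (1 + μ * (exp (δ / 2) - 1)) ^ m * exp (-(δ / 2) * (μ + δ)) ^ m := by
        apply mul_le_mul_of_nonneg_right _ (pow_nonneg (exp_pos _).le _)
        apply pow_le_pow_left₀
        · exact Finset.sum_nonneg fun y _ => mul_nonneg (hP y) (by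
            split_ifs <;> [exact (exp_pos _).le; exact zero_le_one])
        · have : ∑ y, P y * (if g y then exp (δ / 2) else 1) =
              ∑ y, P y + (∑ y, (if g y then P y else 0)) * (exp (δ / 2) - 1) := by
            rw [Finset.sum_mul, ← Finset.sum_add_distrib]
            apply Finset.sum_congr rfl; intro y _
            split_ifs <;> ring
          rw [this, hP1]
          have := mul_le_mul_of_nonneg_right hμ hz
          linarith
    _ ≤ _ := by
        rw [← mul_pow]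
        apply pow_le_pow_left₀
        · exact mul_nonneg (by positivity) (exp_pos _).le
        · exact mgf_le hμ0 hμ1 hδ0 hδ1

lemma sum_prod_single {Y : Type} [Fintype Y] {m : ℕ} (P : Y → ℝ) (hP1 : ∑ y, P y = 1)
    (i : Fin m) (f : Y → ℝ) :
    ∑ S : Fin m → Y, (∏ l, P (S l)) * f (S i) = ∑ y, P y * f y := by
  have h := sum_prod_coord (m := m) (fun l y => P y * (if l = i then f y else 1))
  have h2 : ∀ l : Fin m, (∑ y, P y * (if l = i then f y else 1)) =
      if l = i then ∑ y, P y * f y else 1 := by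
    intro l; split_ifs <;> simp [hP1]
  simp only [h2, Finset.prod_ite_eq', Finset.mem_univ, if_true] at h
  rw [← h]
  apply Finset.sum_congr rfl; intro S _
  rw [Finset.prod_mul_distrib]
  congr 1
  rw [Finset.prod_ite_eq']; simp

lemma sum_prod_pair {Y : Type} [Fintype Y] {m : ℕ} (P : Y → ℝ) (hP1 : ∑ y, P y = 1)
    {i j : Fin m} (hij : i ≠ j) (f g : Y → ℝ) :
    ∑ S : Fin m → Y, (∏ l, P (S l)) * (f (S i) * g (S j)) =
      (∑ y, P y * f y) * (∑ y, P y * g y) := by
  have h := sum_prod_coord (m := m)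
    (fun l y => P y * ((if l = i then f y else 1) * (if l = j then g y else 1)))
  have h2 : ∀ l : Fin m, (∑ y, P y * ((if l = i then f y else 1) * (if l = j then g y else 1))) =
      (if l = i then ∑ y, P y * f y else 1) * (if l = j then ∑ y, P y * g y else 1) := by
    intro l
    by_cases h1 : l = i
    · have h3 : l ≠ j := h1 ▸ hij
      simp [h1, hij]
    · by_cases h3 : l = j
      · simp [h3, hij.symm]
      · simp [h1, h3, hP1]
  simp only [h2, Finset.prod_mul_distrib, Finset.prod_ite_eq', Finset.mem_univ, if_true] at h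
  exact h

lemma collision {Y Z : Type} [Fintype Y] [Fintype Z] [DecidableEq Z] {m : ℕ} (P : Y → ℝ)
    (hP : ∀ y, 0 ≤ P y) (hP1 : ∑ y, P y = 1) (pr : Y → Z) (D : Z → ℝ)
    (hD : ∀ z, ∑ y, P y * (if pr y = z then 1 else 0) = D z) :
    ∑ S : Fin m → Y, (∏ i, P (S i)) *
      (if Function.Injective (fun i => pr (S i)) then (0 : ℝ) else 1) ≤
      (m : ℝ) ^ 2 * ∑ z, D z ^ 2 := by
  classical
  have hs : 0 ≤ ∑ z, D z ^ 2 := Finset.sum_nonneg fun z _ => sq_nonneg _
  have key : ∀ i j : Fin m, ∑ S : Fin m → Y, (∏ l, P (S l)) *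
      (if i ≠ j ∧ pr (S i) = pr (S j) then (1 : ℝ) else 0) ≤ ∑ z, D z ^ 2 := by
    intro i j
    by_cases hij : i = j
    · simp [hij, hs]
    · have : ∀ S : Fin m → Y, (if i ≠ j ∧ pr (S i) = pr (S j) then (1 : ℝ) else 0) =
          ∑ z, (if pr (S i) = z then (1 : ℝ) else 0) * (if pr (S j) = z then (1 : ℝ) else 0) := by
        intro S
        rw [Finset.sum_eq_single (pr (S i))]
        · by_cases h : pr (S i) = pr (S j)
          · simp [h, hij]
          · simp [h, Ne.symm h]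
        · intro z _ hz; simp [Ne.symm hz]
        · simp
      simp only [this, Finset.mul_sum]
      rw [Finset.sum_comm]
      apply le_of_eq
      apply Finset.sum_congr rfl; intro z _
      rw [sum_prod_pair P hP1 hij (fun y => if pr y = z then (1 : ℝ) else 0)
        (fun y => if pr y = z then (1 : ℝ) else 0), hD z]; ring
  calc _ ≤ ∑ S : Fin m → Y, (∏ l, P (S l)) *
        ∑ i : Fin m, ∑ j : Fin m, (if i ≠ j ∧ pr (S i) = pr (S j) then (1 : ℝ) else 0) := by
        apply Finset.sum_le_sum; intro S _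
        apply mul_le_mul_of_nonneg_left _ (Finset.prod_nonneg fun i _ => hP _)
        have hnn : ∀ i j : Fin m, (0 : ℝ) ≤ if i ≠ j ∧ pr (S i) = pr (S j) then (1 : ℝ) else 0 := by
          intro i j; split_ifs <;> norm_num
        split_ifs with h
        · exact Finset.sum_nonneg fun i _ => Finset.sum_nonneg fun j _ => hnn i j
        · obtain ⟨i, j, h1, h2⟩ := Function.not_injective_iff.1 h
          calc (1 : ℝ) = if i ≠ j ∧ pr (S i) = pr (S j) then (1 : ℝ) else 0 := by
                rw [if_pos ⟨h2, h1⟩]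
            _ ≤ ∑ j : Fin m, (if i ≠ j ∧ pr (S i) = pr (S j) then (1 : ℝ) else 0) :=
                Finset.single_le_sum (f := fun j => if i ≠ j ∧ pr (S i) = pr (S j) then (1 : ℝ) else 0)
                  (fun j _ => hnn i j) (Finset.mem_univ j)
            _ ≤ _ := Finset.single_le_sum
                  (f := fun i => ∑ j : Fin m, (if i ≠ j ∧ pr (S i) = pr (S j) then (1 : ℝ) else 0))
                  (fun i _ => Finset.sum_nonneg fun j _ => hnn i j) (Finset.mem_univ i)
    _ = ∑ i : Fin m, ∑ j : Fin m, ∑ S : Fin m → Y, (∏ l, P (S l)) *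
          (if i ≠ j ∧ pr (S i) = pr (S j) then (1 : ℝ) else 0) := by
        simp only [Finset.mul_sum]
        rw [Finset.sum_comm]
        apply Finset.sum_congr rfl; intro i _
        rw [Finset.sum_comm]
    _ ≤ ∑ i : Fin m, ∑ j : Fin m, ∑ z, D z ^ 2 :=
        Finset.sum_le_sum fun i _ => Finset.sum_le_sum fun j _ => key i j
    _ = _ := by simp; ring

end Pool.Agent.MP_9f8ce8_lc

end

section

namespace Pool.Agent.MP_9f8ce8_lc

open Finset Real

variable {n m : ℕ}

/-- number of sample labels that c gets right -/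
def agr (c : X n → Bool) (S : Sample n m) : ℕ :=
  (univ.filter fun i => (S i).2 = c (S i).1).card

/-- the sample points are distinct and c gets a τ fraction of labels right -/
def Agrees (τ : ℝ) (c : X n → Bool) (S : Sample n m) : Prop :=
  Function.Injective (fun i => (S i).1) ∧ τ * m ≤ (agr c S : ℝ)

open Classical in
/-- least key agreeing with the sample -/
noncomputable def dec (τ : ℝ) (F : Fin (2 ^ n) → X n → Bool) (S : Sample n m) :
    WithTop (Fin (2 ^ n)) :=
  (univ.filter fun k => Agrees τ (F k) S).min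

/-- output of the decoding branch -/
def decOut (F : Fin (2 ^ n) → X n → Bool) (x : X n) (b : Bool) (d : WithTop (Fin (2 ^ n))) :
    Bool :=
  WithTop.recTopCoe (C := fun _ => Bool) b (fun k => F k x) d

/-- the weak learner -/
noncomputable def learn (τ : ℝ) (F : Fin (2 ^ n) → X n → Bool) (i0 : Fin m) (S : Sample n m)
    (x : X n) (ω : Bool × Bool) : Bool :=
  if ω.1 then (if x = (S i0).1 then (S i0).2 else ω.2) else decOut F x ω.2 (dec τ F S)

lemma exProb_nonneg {η : ℝ} (h0 : 0 ≤ η) (h1 : η ≤ 1) (c : X n → Bool) {D : X n → ℝ}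
    (hD : ∀ x, 0 ≤ D x) (y : X n × Bool) : 0 ≤ exProb η c D y := by
  unfold exProb
  apply mul_nonneg (hD _)
  split_ifs <;> linarith

lemma sum_exProb (η : ℝ) (c : X n → Bool) (D : X n → ℝ) (f : X n × Bool → ℝ) :
    ∑ y, exProb η c D y * f y =
      ∑ x, D x * ((1 - η) * f (x, c x) + η * f (x, !c x)) := by
  rw [Fintype.sum_prod_type]
  apply Finset.sum_congr rfl; intro x _
  rw [Fintype.sum_bool]
  unfold exProb
  cases c x <;> simp <;> ring

lemma sum_exProb_one (η : ℝ) (c : X n → Bool) {D : X n → ℝ} (hD : ∑ x, D x = 1) :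
    ∑ y, exProb η c D y = 1 := by
  have := sum_exProb η c D (fun _ => 1)
  simp only [mul_one, sub_add_cancel] at this
  rw [this, hD]

lemma exProb_collision {η : ℝ} (h0 : 0 ≤ η) (h1 : η ≤ 1) (c : X n → Bool) {D : X n → ℝ}
    (hD : ∀ x, 0 ≤ D x) (hD1 : ∑ x, D x = 1) :
    ∑ S : Sample n m, (∏ i, exProb η c D (S i)) *
      (if Function.Injective (fun i => (S i).1) then (0 : ℝ) else 1) ≤
      (m : ℝ) ^ 2 * ∑ z, D z ^ 2 := by
  have := collision (m := m) (exProb η c D) (exProb_nonneg h0 h1 c hD) (sum_exProb_one η c hD1)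
    Prod.fst D (by
      intro z
      rw [sum_exProb]
      rw [Finset.sum_eq_single z]
      · simp
      · intro x _ hx; simp [hx]
      · simp)
  convert this

/-- disagreement mass -/
noncomputable def dist (D : X n → ℝ) (c c' : X n → Bool) : ℝ :=
  ∑ x, D x * (if c' x = c x then 0 else 1)

lemma dist_le_one {D : X n → ℝ} (hD : ∀ x, 0 ≤ D x) (hD1 : ∑ x, D x = 1) (c c' : X n → Bool) :
    dist D c c' ≤ 1 := by
  rw [← hD1]
  apply Finset.sum_le_sum; intro x _
  split_ifs <;> simp [hD x]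

lemma coins_sum (τ : ℝ) (F : Fin (2 ^ n) → X n → Bool) (i0 : Fin m) (S : Sample n m)
    (c : X n → Bool) (x : X n) :
    (∑ ω : Bool × Bool, if learn τ F i0 S x ω = c x then (0 : ℝ) else 1) =
      (1 - (if x = (S i0).1 then (if (S i0).2 = c (S i0).1 then 1 else -1) else 0)) +
      ∑ b : Bool, if decOut F x b (dec τ F S) = c x then (0 : ℝ) else 1 := by
  rw [Fintype.sum_prod_type, Fintype.sum_bool]
  congr 1
  · rw [Fintype.sum_bool]
    unfold learn
    by_cases hx : x = (S i0).1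
    · subst hx
      by_cases h : (S i0).2 = c (S i0).1
      · simp [h]
      · simp [h]
    · cases c x <;> simp [hx]

lemma dec_bound {η δ θ : ℝ} (hθ0 : 0 ≤ θ) (hθ1 : θ ≤ 1) (F : Fin (2 ^ n) → X n → Bool)
    (k0 : Fin (2 ^ n)) {D : X n → ℝ} (hD : ∀ x, 0 ≤ D x) (hD1 : ∑ x, D x = 1)
    (S : Sample n m) :
    ∑ x, D x * (∑ b : Bool, if decOut F x b (dec (1 - η - δ) F S) = F k0 x then (0 : ℝ) else 1) ≤
      1 - θ / 2 * (1 - (if Function.Injective (fun i => (S i).1) then (0 : ℝ) else 1) -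
        (if (η + δ) * m ≤ ((univ.filter fun i => ¬ (S i).2 = F k0 (S i).1).card : ℝ)
          then (1 : ℝ) else 0)) +
      3 / 2 * ∑ k : Fin (2 ^ n), (if 1 / 4 < dist D (F k0) (F k) then
        (if (1 - η - δ) * m ≤ (agr (F k) S : ℝ) then (1 : ℝ) else 0) else 0) := by
  classical
  set u : ℝ := (if Function.Injective (fun i => (S i).1) then (0 : ℝ) else 1) with hu
  set v : ℝ := (if (η + δ) * m ≤ ((univ.filter fun i => ¬ (S i).2 = F k0 (S i).1).card : ℝ)
          then (1 : ℝ) else 0) with hv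
  set w : Fin (2 ^ n) → ℝ := fun k => (if 1 / 4 < dist D (F k0) (F k) then
        (if (1 - η - δ) * m ≤ (agr (F k) S : ℝ) then (1 : ℝ) else 0) else 0) with hw
  have hu0 : 0 ≤ u := by rw [hu]; split_ifs <;> norm_num
  have hv0 : 0 ≤ v := by rw [hv]; split_ifs <;> norm_num
  have hw0 : ∀ k, 0 ≤ w k := by intro k; rw [hw]; dsimp only; split_ifs <;> norm_num
  have hW0 : 0 ≤ ∑ k, w k := Finset.sum_nonneg fun k _ => hw0 k
  have huv : θ / 2 * (1 - u - v) ≤ 1 / 2 := by nlinarith
  cases hd : dec (1 - η - δ) F S with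
  | top =>
    have h1 : ∀ x, (∑ b : Bool, if decOut F x b ⊤ = F k0 x then (0 : ℝ) else 1) = 1 := by
      intro x
      rw [Fintype.sum_bool]
      unfold decOut
      cases F k0 x <;> simp
    simp only [h1, mul_one, hD1]
    have h2 : ¬ Agrees (1 - η - δ) (F k0) S := by
      intro h
      unfold dec at hd
      rw [Finset.min_eq_top] at hd
      have : k0 ∈ (univ.filter fun k => Agrees (1 - η - δ) (F k) S) := by simp [h]
      rw [hd] at this; simp at this
    have h3 : 1 - u - v ≤ 0 := by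
      by_cases hi : Function.Injective (fun i => (S i).1)
      · have h4 : ¬ (1 - η - δ) * m ≤ (agr (F k0) S : ℝ) := fun h => h2 ⟨hi, h⟩
        have h5 : (agr (F k0) S : ℝ) +
            ((univ.filter fun i => ¬ (S i).2 = F k0 (S i).1).card : ℝ) = m := by
          unfold agr
          have := Finset.card_filter_add_card_filter_not (s := (univ : Finset (Fin m)))
            (fun i => (S i).2 = F k0 (S i).1)
          rw [Finset.card_univ, Fintype.card_fin] at this
          exact_mod_cast this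
        have : v = 1 := by
          rw [hv, if_pos]; push Not at h4; nlinarith
        linarith
      · have : u = 1 := by rw [hu, if_neg hi]
        linarith
    nlinarith
  | coe k =>
    have h1 : ∀ x, (∑ b : Bool, if decOut F x b (k : WithTop (Fin (2 ^ n))) = F k0 x
        then (0 : ℝ) else 1) = 2 * (if F k x = F k0 x then 0 else 1) := by
      intro x
      rw [Fintype.sum_bool]
      unfold decOut
      simp only [WithTop.recTopCoe_coe]; ring
    have h2 : ∑ x, D x * (2 * (if F k x = F k0 x then (0 : ℝ) else 1)) =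
        2 * dist D (F k0) (F k) := by
      unfold dist; rw [Finset.mul_sum]
      apply Finset.sum_congr rfl; intro x _; ring
    simp only [h1, h2]
    have h3 : Agrees (1 - η - δ) (F k) S := by
      unfold dec at hd
      have := Finset.mem_of_min hd
      simpa using this
    by_cases h4 : 1 / 4 < dist D (F k0) (F k)
    · have h5 : w k = 1 := by rw [hw]; dsimp only; rw [if_pos h4, if_pos h3.2]
      have h6 : w k ≤ ∑ k, w k := Finset.single_le_sum (fun k _ => hw0 k) (Finset.mem_univ k)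
      have := dist_le_one hD hD1 (F k0) (F k)
      linarith
    · push Not at h4
      linarith

lemma learn_err {η δ : ℝ} (h0 : 0 ≤ η) (h1 : η < 1 / 2) (hδ0 : 0 ≤ δ)
    (hδ : δ ≤ (1 - 2 * η) / 8) (hm : 2 ≤ m) (F : Fin (2 ^ n) → X n → Bool) (i0 : Fin m)
    (k0 : Fin (2 ^ n)) {D : X n → ℝ} (hD : ∀ x, 0 ≤ D x) (hD1 : ∑ x, D x = 1) :
    err η (F k0) D (learn (1 - η - δ) F i0) ≤
      1 / 2 - ((1 - 2 * η) * (1 - exp (-(δ ^ 2 / 4)) ^ m) / (m : ℝ) ^ 2 -
        3 / 2 * (2 ^ n * exp (-(δ ^ 2 / 4)) ^ m)) / 4 := by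
  classical
  set ε := exp (-(δ ^ 2 / 4)) ^ m with hε
  set c := F k0 with hc
  set P := exProb η c D with hP
  have hP0 : ∀ y, 0 ≤ P y := exProb_nonneg h0 (by linarith) c hD
  have hP1 : ∑ y, P y = 1 := sum_exProb_one η c hD1
  have hW0 : ∀ S : Sample n m, 0 ≤ ∏ i, P (S i) := fun S => Finset.prod_nonneg fun i _ => hP0 _
  have hW1 : ∑ S : Sample n m, ∏ i, P (S i) = 1 := sum_prod_one P hP1
  have hm' : (2 : ℝ) ≤ m := by exact_mod_cast hm
  set θ : ℝ := 2 * (1 - 2 * η) / (m : ℝ) ^ 2 with hθ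
  have hθ0 : 0 ≤ θ := by rw [hθ]; apply div_nonneg <;> nlinarith
  have hθ1 : θ ≤ 1 := by
    rw [hθ, div_le_one (by positivity)]; nlinarith
  set s := ∑ z, D z ^ 2 with hs
  -- the five expectations
  have e1 : ∑ S : Sample n m, (∏ i, P (S i)) *
      (D (S i0).1 * (if (S i0).2 = c (S i0).1 then 1 else -1)) = (1 - 2 * η) * s := by
    rw [sum_prod_single P hP1 i0 (fun y => D y.1 * (if y.2 = c y.1 then (1 : ℝ) else -1)),
      hP, sum_exProb, hs, Finset.mul_sum]
    apply Finset.sum_congr rfl; intro x _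
    simp; ring
  have e2 := exProb_collision (m := m) h0 (by linarith) c hD hD1
  have e3 := chernoff (m := m) P hP0 hP1 (fun y => ¬ y.2 = c y.1) (μ := η) (δ := δ) (by
    have : ∑ y, (if ¬ y.2 = c y.1 then P y else 0) =
        ∑ y, P y * (if ¬ y.2 = c y.1 then 1 else 0) := by
      apply Finset.sum_congr rfl; intro y _; split_ifs <;> simp
    rw [this, hP, sum_exProb]
    simp only [not_true_eq_false, if_false, mul_zero, Bool.not_eq_eq_eq_not, zero_add]
    have : ∀ x, (if ¬ c x = !c x then (1 : ℝ) else 0) = 1 := by intro x; cases c x <;> simp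
    simp only [this, mul_one, ← Finset.sum_mul, hD1, one_mul, le_refl])
    (by linarith) hδ0 (by linarith)
  have e4 : ∀ k : Fin (2 ^ n), ∑ S : Sample n m, (∏ i, P (S i)) *
      (if 1 / 4 < dist D c (F k) then
        (if (1 - η - δ) * m ≤ (agr (F k) S : ℝ) then (1 : ℝ) else 0) else 0) ≤ ε := by
    intro k
    by_cases h4 : 1 / 4 < dist D c (F k)
    · simp only [if_pos h4]
      have := chernoff (m := m) P hP0 hP1 (fun y => y.2 = F k y.1) (μ := 1 - η - 2 * δ)
        (δ := δ) (by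
          have : ∑ y, (if y.2 = F k y.1 then P y else 0) =
              ∑ y, P y * (if y.2 = F k y.1 then 1 else 0) := by
            apply Finset.sum_congr rfl; intro y _; split_ifs <;> simp
          rw [this, hP, sum_exProb]
          have h5 : ∑ x, D x * ((1 - η) * (if c x = F k x then (1 : ℝ) else 0) +
              η * (if (!c x) = F k x then (1 : ℝ) else 0)) =
              (1 - η) * ∑ x, D x - (1 - 2 * η) * dist D c (F k) := by
            unfold dist
            rw [Finset.mul_sum, Finset.mul_sum, ← Finset.sum_sub_distrib]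
            apply Finset.sum_congr rfl; intro x _
            cases c x <;> cases F k x <;> simp <;> ring
          dsimp only
          rw [h5, hD1]
          nlinarith) (by linarith) hδ0 (by linarith)
      have h6 : 1 - η - 2 * δ + δ = 1 - η - δ := by ring
      rw [h6] at this
      exact this
    · simp only [if_neg h4, mul_zero, Finset.sum_const_zero]
      positivity
  have e5 : ∑ S : Sample n m, (∏ i, P (S i)) * ∑ k : Fin (2 ^ n),
      (if 1 / 4 < dist D c (F k) then
        (if (1 - η - δ) * m ≤ (agr (F k) S : ℝ) then (1 : ℝ) else 0) else 0) ≤ 2 ^ n * ε := by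
    simp only [Finset.mul_sum]
    rw [Finset.sum_comm]
    calc _ ≤ ∑ k : Fin (2 ^ n), ε := Finset.sum_le_sum fun k _ => e4 k
      _ = _ := by simp
  -- pointwise bound
  have pt : ∀ S : Sample n m,
      ∑ x : X n, D x * (∑ ω : Bool × Bool, if learn (1 - η - δ) F i0 S x ω = c x
        then (0 : ℝ) else 1) / (Fintype.card (Bool × Bool) : ℝ) ≤
      (1 - D (S i0).1 * (if (S i0).2 = c (S i0).1 then 1 else -1) +
      (1 - θ / 2 * (1 - (if Function.Injective (fun i => (S i).1) then (0 : ℝ) else 1) -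
        (if (η + δ) * m ≤ ((univ.filter fun i => ¬ (S i).2 = c (S i).1).card : ℝ)
          then (1 : ℝ) else 0)) +
      3 / 2 * ∑ k : Fin (2 ^ n), (if 1 / 4 < dist D c (F k) then
        (if (1 - η - δ) * m ≤ (agr (F k) S : ℝ) then (1 : ℝ) else 0) else 0))) / 4 := by
    intro S
    have hb := dec_bound (η := η) (δ := δ) hθ0 hθ1 F k0 hD hD1 S
    have h4 : (Fintype.card (Bool × Bool) : ℝ) = 4 := by simp
    rw [h4, ← Finset.sum_div]
    apply div_le_div_of_nonneg_right _ (by norm_num)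
    simp only [coins_sum, mul_add, Finset.sum_add_distrib]
    have h5 : ∑ x, D x * (1 - (if x = (S i0).1 then
        (if (S i0).2 = c (S i0).1 then (1 : ℝ) else -1) else 0)) =
        1 - D (S i0).1 * (if (S i0).2 = c (S i0).1 then 1 else -1) := by
      simp only [mul_sub, mul_one, Finset.sum_sub_distrib, hD1, mul_ite, mul_zero,
        Finset.sum_ite_eq', Finset.mem_univ, if_true]
    rw [h5]
    linarith
  unfold err
  refine le_trans (Finset.sum_le_sum fun S _ => mul_le_mul_of_nonneg_left (pt S) (hW0 S)) ?_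
  have hsplit : ∀ (W a u v w : ℝ), W * ((1 - a + (1 - θ / 2 * (1 - u - v) + 3 / 2 * w)) / 4) =
      ((2 - θ / 2) * W - W * a + θ / 2 * (W * u) + θ / 2 * (W * v) + 3 / 2 * (W * w)) / 4 := by
    intros; ring
  simp only [hsplit]
  rw [← Finset.sum_div]
  simp only [Finset.sum_add_distrib, Finset.sum_sub_distrib, ← Finset.mul_sum]
  rw [hW1, e1]
  have hθm : θ / 2 * ((m : ℝ) ^ 2 * s) = (1 - 2 * η) * s := by
    rw [hθ]; field_simp
  have hθe : (1 - 2 * η) * (1 - ε) / (m : ℝ) ^ 2 = θ / 2 * (1 - ε) := by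
    rw [hθ]; field_simp
  have b2 := mul_le_mul_of_nonneg_left e2 (show 0 ≤ θ / 2 by linarith)
  have b3 := mul_le_mul_of_nonneg_left e3 (show 0 ≤ θ / 2 by linarith)
  rw [hθe]
  rw [hθm] at b2
  linarith

end Pool.Agent.MP_9f8ce8_lc

end

section

namespace Pool.Agent.MP_9f8ce8_lc

open Finset Real

variable {n m M : ℕ}

/-- flip the value of c at y -/
def flipAt (y : X n) (c : X n → Bool) : X n → Bool := Function.update c y (!c y)

lemma flipAt_self (y : X n) (c : X n → Bool) : flipAt y c y = !c y := by simp [flipAt]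

lemma flipAt_ne {y x : X n} (h : x ≠ y) (c : X n → Bool) : flipAt y c x = c x := by
  simp [flipAt, h]

lemma flipAt_invol (y : X n) : Function.Involutive (flipAt y) := by
  intro c; funext x
  by_cases h : x = y
  · subst h; simp [flipAt]
  · simp [flipAt, h]

lemma sum_flipAt (y : X n) (f : (X n → Bool) → ℝ) : ∑ c, f (flipAt y c) = ∑ c, f c :=
  Equiv.sum_comp (flipAt_invol y).toPerm f

/-- weight of the sample under the uniform distribution -/
noncomputable def wt (η : ℝ) (c : X n → Bool) (S : Sample n M) : ℝ :=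
  ∏ i, exProb η c (fun _ => 1 / 2 ^ n) (S i)

lemma wt_nonneg {η : ℝ} (h0 : 0 ≤ η) (h1 : η ≤ 1) (c : X n → Bool) (S : Sample n M) :
    0 ≤ wt η c S :=
  Finset.prod_nonneg fun _ _ => exProb_nonneg h0 h1 c (fun _ => by positivity) _

lemma wt_flip_of_not_mem (η : ℝ) (c : X n → Bool) (S : Sample n M) {y : X n}
    (h : ∀ i, (S i).1 ≠ y) : wt η (flipAt y c) S = wt η c S := by
  unfold wt exProb
  apply Finset.prod_congr rfl; intro i _
  rw [flipAt_ne (h i)]

lemma wt_flip_ratio {η : ℝ} (h0 : 0 ≤ η) (h1 : η ≤ 1 / 2) (c : X n → Bool) {S : Sample n M}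
    (hS : Function.Injective (fun i => (S i).1)) (y : X n) :
    η * wt η c S ≤ (1 - η) * wt η (flipAt y c) S := by
  by_cases h : ∀ i, (S i).1 ≠ y
  · rw [wt_flip_of_not_mem η c S h]
    exact mul_le_mul_of_nonneg_right (by linarith) (wt_nonneg h0 (by linarith) c S)
  · push Not at h
    obtain ⟨i, hi⟩ := h
    unfold wt
    rw [← Finset.mul_prod_erase _ _ (Finset.mem_univ i),
      ← Finset.mul_prod_erase _ (fun l => exProb η (flipAt y c) (fun _ => 1 / 2 ^ n) (S l))
        (Finset.mem_univ i)]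
    have h2 : ∏ l ∈ univ.erase i, exProb η (flipAt y c) (fun _ => 1 / 2 ^ n) (S l) =
        ∏ l ∈ univ.erase i, exProb η c (fun _ => 1 / 2 ^ n) (S l) := by
      apply Finset.prod_congr rfl; intro l hl
      have : (S l).1 ≠ y := by
        intro h3
        exact (Finset.mem_erase.1 hl).1 (hS (h3.trans hi.symm))
      unfold exProb; rw [flipAt_ne this]
    rw [h2, ← mul_assoc, ← mul_assoc]
    apply mul_le_mul_of_nonneg_right _ (Finset.prod_nonneg fun _ _ =>
      exProb_nonneg h0 (by linarith) c (fun _ => by positivity) _)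
    unfold exProb
    have h3 : (0 : ℝ) ≤ 1 / 2 ^ n := by positivity
    have h4 : (if (S i).2 = c (S i).1 then 1 - η else η) ≤ 1 - η := by split_ifs <;> linarith
    have h5 : η ≤ (if (S i).2 = flipAt y c (S i).1 then 1 - η else η) := by
      split_ifs <;> linarith
    calc η * (1 / 2 ^ n * (if (S i).2 = c (S i).1 then 1 - η else η))
        ≤ η * (1 / 2 ^ n * (1 - η)) :=
          mul_le_mul_of_nonneg_left (mul_le_mul_of_nonneg_left h4 h3) h0
      _ = (1 - η) * (1 / 2 ^ n * η) := by ring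
      _ ≤ _ := mul_le_mul_of_nonneg_left (mul_le_mul_of_nonneg_left h5 h3) (by linarith)

lemma tilt {η z : ℝ} (h1 : η ≤ 1 / 2) (hz : 1 ≤ z) (W : (X n → Bool) → ℝ) (hW : ∀ c, 0 ≤ W c)
    (hr : ∀ y c, η * W c ≤ (1 - η) * W (flipAt y c)) {S : Sample n m}
    (hS : Function.Injective (fun i => (S i).1)) (J : Finset (Fin m)) :
    ∑ c, W c * ∏ j ∈ J, (if (S j).2 = c (S j).1 then z else 1) ≤
      (1 + (1 - η) * (z - 1)) ^ J.card * ∑ c, W c := by
  induction J using Finset.induction_on with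
  | empty => simp
  | insert j J hj ih =>
    set ρ := 1 + (1 - η) * (z - 1) with hρ
    have hρ0 : 0 ≤ ρ := by rw [hρ]; nlinarith
    set V : (X n → Bool) → ℝ := fun c => ∏ l ∈ J, (if (S l).2 = c (S l).1 then z else 1) with hV
    have hV0 : ∀ c, 0 ≤ V c := fun c => Finset.prod_nonneg fun l _ => by split_ifs <;> linarith
    have hVf : ∀ c, V (flipAt (S j).1 c) = V c := by
      intro c
      apply Finset.prod_congr rfl; intro l hl
      have : (S l).1 ≠ (S j).1 := by
        intro h3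
        have : l = j := hS h3
        exact hj (this ▸ hl)
      rw [flipAt_ne this]
    simp only [Finset.prod_insert hj, Finset.card_insert_of_notMem hj]
    have key : ∑ c, W c * ((if (S j).2 = c (S j).1 then z else 1) * V c) ≤ ρ * ∑ c, W c * V c := by
      have a1 := sum_flipAt (S j).1
        (fun c => W c * ((if (S j).2 = c (S j).1 then z else 1) * V c))
      have a2 := sum_flipAt (S j).1 (fun c => W c * V c)
      simp only [hVf, flipAt_self] at a1 a2
      have a3 : ∑ c, (W c * ((if (S j).2 = c (S j).1 then z else 1) * V c) +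
          W (flipAt (S j).1 c) * ((if (S j).2 = !c (S j).1 then z else 1) * V c)) ≤
          ∑ c, ρ * (W c * V c + W (flipAt (S j).1 c) * V c) := by
        apply Finset.sum_le_sum; intro c _
        have b1 := hr (S j).1 c
        have b2 := hr (S j).1 (flipAt (S j).1 c)
        rw [flipAt_invol] at b2
        have b3 := hV0 c
        by_cases h : (S j).2 = c (S j).1
        · have h' : ¬ (S j).2 = !c (S j).1 := by rw [h]; simp
          rw [if_pos h, if_neg h']
          have : W c * z + W (flipAt (S j).1 c) ≤ ρ * (W c + W (flipAt (S j).1 c)) := by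
            rw [hρ]; nlinarith
          nlinarith
        · have h' : (S j).2 = !c (S j).1 := by
            revert h; cases (S j).2 <;> cases c (S j).1 <;> simp
          rw [if_neg h, if_pos h']
          have : W c + W (flipAt (S j).1 c) * z ≤ ρ * (W c + W (flipAt (S j).1 c)) := by
            rw [hρ]; nlinarith
          nlinarith
      rw [Finset.sum_add_distrib, ← Finset.mul_sum, Finset.sum_add_distrib, a1, a2] at a3
      linarith
    calc _ ≤ ρ * ∑ c, W c * V c := key
      _ ≤ ρ * (ρ ^ J.card * ∑ c, W c) := mul_le_mul_of_nonneg_left ih hρ0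
      _ = _ := by ring

open Classical in
lemma posterior {η δ τ : ℝ} (h0 : 0 ≤ η) (h1 : η ≤ 1 / 2) (hδ0 : 0 ≤ δ) (hδ1 : δ ≤ 2)
    (hτ : 1 - η + δ ≤ τ) {S : Sample n M} (hS : Function.Injective (fun i => (S i).1))
    (S' : Sample n m) :
    ∑ c, wt η c S * (if Agrees τ c S' then (1 : ℝ) else 0) ≤
      exp (-(δ ^ 2 / 4)) ^ m * ∑ c, wt η c S := by
  have hW : ∀ c, 0 ≤ wt η c S := fun c => wt_nonneg h0 (by linarith) c S
  have hWs : 0 ≤ ∑ c, wt η c S := Finset.sum_nonneg fun c _ => hW c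
  by_cases hS' : Function.Injective (fun i => (S' i).1)
  · have hz : 1 ≤ exp (δ / 2) := Real.one_le_exp (by linarith)
    have t := tilt h1 hz (fun c => wt η c S) hW (fun y c => wt_flip_ratio h0 h1 c hS y) hS' univ
    rw [Finset.card_univ, Fintype.card_fin] at t
    calc _ ≤ ∑ c, wt η c S * ((∏ j, (if (S' j).2 = c (S' j).1 then exp (δ / 2) else 1)) *
            exp (-(δ / 2) * (1 - η + δ)) ^ m) := by
          apply Finset.sum_le_sum; intro c _
          apply mul_le_mul_of_nonneg_left _ (hW c)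
          refine le_trans ?_ (ind_le_prod (fun j => (S' j).2 = c (S' j).1) (1 - η + δ)
            (show 0 ≤ δ / 2 by linarith))
          split_ifs with a1 a2
          · exact le_refl _
          · exfalso; apply a2
            have := a1.2
            unfold agr at this
            have hm : (0 : ℝ) ≤ m := Nat.cast_nonneg m
            nlinarith
          · norm_num
          · exact le_refl _
      _ = (∑ c, wt η c S * (∏ j, (if (S' j).2 = c (S' j).1 then exp (δ / 2) else 1))) *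
            exp (-(δ / 2) * (1 - η + δ)) ^ m := by
          rw [Finset.sum_mul]; apply Finset.sum_congr rfl; intro c _; ring
      _ ≤ ((1 + (1 - η) * (exp (δ / 2) - 1)) ^ m * ∑ c, wt η c S) *
            exp (-(δ / 2) * (1 - η + δ)) ^ m :=
          mul_le_mul_of_nonneg_right t (by positivity)
      _ = ((1 + (1 - η) * (exp (δ / 2) - 1)) * exp (-(δ / 2) * (1 - η + δ))) ^ m *
            ∑ c, wt η c S := by rw [mul_pow]; ring
      _ ≤ _ := by
          apply mul_le_mul_of_nonneg_right _ hWs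
          apply pow_le_pow_left₀
          · apply mul_nonneg _ (exp_pos _).le
            nlinarith
          · exact mgf_le (by linarith) (by linarith) hδ0 hδ1
  · have : ∀ c, ¬ Agrees τ c S' := fun c h => hS' h.1
    simp only [this, if_false, mul_zero, Finset.sum_const_zero]
    positivity

lemma fresh_half (η : ℝ) (S : Sample n M) {x : X n} (hx : ∀ i, (S i).1 ≠ x) (b : Bool) :
    ∑ c, wt η c S * (if b = c x then (0 : ℝ) else 1) = 1 / 2 * ∑ c, wt η c S := by
  have a1 := sum_flipAt x (fun c => wt η c S * (if b = c x then (0 : ℝ) else 1))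
  simp only [wt_flip_of_not_mem η _ S hx, flipAt_self] at a1
  have a2 : ∑ c, wt η c S * (if b = c x then (0 : ℝ) else 1) +
      ∑ c, wt η c S * (if b = !c x then (0 : ℝ) else 1) = ∑ c, wt η c S := by
    rw [← Finset.sum_add_distrib]
    apply Finset.sum_congr rfl; intro c _
    cases b <;> cases c x <;> simp
  linarith

end Pool.Agent.MP_9f8ce8_lc

end

section

namespace Pool.Agent.MP_9f8ce8_lc

open Finset Real

open Classical in
/-- the set of queries asked when the answers come from O -/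
noncomputable def DT.path {Q : Type} (O : Q → Bool) : DT Q → Finset Q
  | .leaf _ => ∅
  | .node q t f => insert q (if O q then t.path O else f.path O)

lemma DT.eval_eq_of_path {Q : Type} {O O' : Q → Bool} :
    ∀ t : DT Q, (∀ q ∈ t.path O, O' q = O q) → t.eval O' = t.eval O
  | .leaf _, _ => rfl
  | .node q t f, h => by
    classical
    have hq : O' q = O q := h q (by simp [DT.path])
    simp only [DT.eval, hq]
    cases hO : O q with
    | true =>
      simp only [if_true]
      exact DT.eval_eq_of_path t fun q' hq' => h q' (by simp [DT.path, hO, hq'])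
    | false =>
      simp only [Bool.false_eq_true, if_false]
      exact DT.eval_eq_of_path f fun q' hq' => h q' (by simp [DT.path, hO, hq'])

lemma DT.card_path_le {Q : Type} (O : Q → Bool) : ∀ t : DT Q, (t.path O).card ≤ t.depth
  | .leaf _ => by simp [DT.path]
  | .node q t f => by
    classical
    have h1 := DT.card_path_le O t
    have h2 := DT.card_path_le O f
    simp only [DT.path, DT.depth]
    refine le_trans (Finset.card_insert_le _ _) ?_
    split_ifs <;> omega

lemma min_erase_of_ne {α : Type} [LinearOrder α] (s : Finset α) (k : α)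
    (h : s.min ≠ (k : WithTop α)) : (s.erase k).min = s.min := by
  apply le_antisymm
  · cases hd : s.min with
    | top => exact le_top
    | coe a =>
      apply Finset.min_le
      rw [Finset.mem_erase]
      refine ⟨fun h2 => h (by rw [hd, h2]), Finset.mem_of_min hd⟩
  · exact Finset.min_mono (Finset.erase_subset _ _)

variable {m : ℕ → ℕ}

/-- the oracle made of the table G and its weak learner -/
noncomputable def orc (τ : ℕ → ℝ) (i0 : (n : ℕ) → Fin (m n))
    (G : (n : ℕ) → Fin (2 ^ n) → X n → Bool) : Query m → Bool :=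
  oracle (fun n => learn (τ n) (G n) (i0 n)) G

/-- row k of level n replaced by c -/
def plant (G : (n : ℕ) → Fin (2 ^ n) → X n → Bool) (n : ℕ) (k : Fin (2 ^ n)) (c : X n → Bool) :
    (n : ℕ) → Fin (2 ^ n) → X n → Bool :=
  Function.update G n (Function.update (G n) k c)

/-- the query touches key k -/
def KeyIs (τ : ℕ → ℝ) (G : (n : ℕ) → Fin (2 ^ n) → X n → Bool) (n : ℕ) (q : Query m)
    (k : Fin (2 ^ n)) : Prop :=
  (∃ S x ω, q = Query.learner n S x ω ∧ dec (τ n) (G n) S = k) ∨ ∃ x, q = Query.concept n k x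

/-- the query is a sample that c agrees with -/
def AgreeQ (τ : ℕ → ℝ) (n : ℕ) (q : Query m) (c : X n → Bool) : Prop :=
  ∃ S x ω, q = Query.learner n S x ω ∧ Agrees (τ n) c S

lemma learn_update {n M : ℕ} (τ : ℝ) (F : Fin (2 ^ n) → X n → Bool) (i0 : Fin M)
    (k : Fin (2 ^ n)) (c : X n → Bool) (S : Sample n M) (x : X n) (ω : Bool × Bool)
    (h1 : dec τ F S ≠ k) (h2 : ¬ Agrees τ c S) :
    learn τ (Function.update F k c) i0 S x ω = learn τ F i0 S x ω := by
  classical
  have hd : dec τ (Function.update F k c) S = dec τ F S := by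
    unfold dec at h1 ⊢
    rw [← min_erase_of_ne _ k h1]
    congr 1
    ext j
    by_cases hj : j = k
    · subst hj; simp [h2]
    · simp [hj]
  unfold learn
  rw [hd]
  congr 1
  cases hd2 : dec τ F S with
  | top => rfl
  | coe j =>
    have : j ≠ k := fun h => h1 (by rw [hd2, h])
    unfold decOut
    simp [this]

lemma orc_plant (τ : ℕ → ℝ) (i0 : (n : ℕ) → Fin (m n))
    (G : (n : ℕ) → Fin (2 ^ n) → X n → Bool) (n : ℕ) (k : Fin (2 ^ n)) (c : X n → Bool)
    (q : Query m) (h1 : ¬ KeyIs τ G n q k) (h2 : ¬ AgreeQ τ n q c) :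
    orc τ i0 (plant G n k c) q = orc τ i0 G q := by
  cases q with
  | learner n' S x ω =>
    unfold orc oracle plant
    by_cases h : n' = n
    · subst h
      simp only [Function.update_self]
      apply learn_update
      · intro h3; exact h1 (Or.inl ⟨S, x, ω, rfl, h3⟩)
      · intro h3; exact h2 ⟨S, x, ω, rfl, h3⟩
    · simp only [Function.update_of_ne h]
  | concept n' k' x =>
    unfold orc oracle plant
    by_cases h : n' = n
    · subst h
      simp only [Function.update_self]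
      have : k' ≠ k := fun h3 => h1 (Or.inr ⟨x, by rw [h3]⟩)
      rw [Function.update_of_ne this]
    · simp only [Function.update_of_ne h]

open Classical in
lemma sum_keyIs (τ : ℕ → ℝ) (G : (n : ℕ) → Fin (2 ^ n) → X n → Bool) (n : ℕ) (q : Query m) :
    ∑ k : Fin (2 ^ n), (if KeyIs τ G n q k then (1 : ℝ) else 0) ≤ 1 := by
  rw [Finset.sum_boole]
  have : (univ.filter fun k => KeyIs τ G n q k).card ≤ 1 := by
    rw [Finset.card_le_one]
    intro a ha b hb
    rw [Finset.mem_filter] at ha hb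
    rcases ha.2 with ⟨S, x, ω, h1, h2⟩ | ⟨x, h1⟩ <;> rcases hb.2 with ⟨S', x', ω', h3, h4⟩ | ⟨x', h3⟩
    · rw [h1] at h3
      cases h3
      rw [h2] at h4
      exact WithTop.coe_injective h4
    · rw [h1] at h3; cases h3
    · rw [h1] at h3; cases h3
    · rw [h1] at h3; cases h3; rfl
  exact_mod_cast this

open Classical in
lemma sum_agreeQ {η δ : ℝ} (τ : ℕ → ℝ) (n : ℕ) (h0 : 0 ≤ η) (h1 : η ≤ 1 / 2) (hδ0 : 0 ≤ δ)
    (hδ1 : δ ≤ 2) (hτ : 1 - η + δ ≤ τ n) {M : ℕ} {S : Sample n M}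
    (hS : Function.Injective (fun i => (S i).1)) (q : Query m) :
    ∑ c, wt η c S * (if AgreeQ τ n q c then (1 : ℝ) else 0) ≤
      exp (-(δ ^ 2 / 4)) ^ (m n) * ∑ c, wt η c S := by
  by_cases h : ∃ S' x ω, q = Query.learner n S' x ω
  · obtain ⟨S', x, ω, hq⟩ := h
    have : ∀ c, AgreeQ τ n q c ↔ Agrees (τ n) c S' := by
      intro c
      constructor
      · rintro ⟨S'', x', ω', h3, h4⟩
        rw [hq] at h3; cases h3; exact h4
      · intro h3; exact ⟨S', x, ω, hq, h3⟩
    simp only [this]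
    exact posterior h0 h1 hδ0 hδ1 hτ hS S'
  · have : ∀ c, ¬ AgreeQ τ n q c := by
      rintro c ⟨S', x, ω, hq, _⟩; exact h ⟨S', x, ω, hq⟩
    simp only [this, if_false, mul_zero, Finset.sum_const_zero]
    exact mul_nonneg (by positivity)
      (Finset.sum_nonneg fun c _ => wt_nonneg h0 (by linarith) c S)

open Classical in
lemma tree_bound {η δ : ℝ} (τ : ℕ → ℝ) (i0 : (n : ℕ) → Fin (m n))
    (G : (n : ℕ) → Fin (2 ^ n) → X n → Bool) (n : ℕ) (h0 : 0 ≤ η) (h1 : η ≤ 1 / 2) (hδ0 : 0 ≤ δ)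
    (hδ1 : δ ≤ 2) (hτ : 1 - η + δ ≤ τ n) (hε : 2 ^ n * exp (-(δ ^ 2 / 4)) ^ (m n) ≤ 1)
    {M T : ℕ} (S : Sample n M) (x : X n) (t : DT (Query m)) (ht : t.depth ≤ T) :
    (∑ c, wt η c S) * (2 ^ n / 2 - 2 ^ n / 2 * (if ∃ i, (S i).1 = x then 1 else 0) - 2 * T -
      2 ^ n * (if Function.Injective (fun i => (S i).1) then (0 : ℝ) else 1)) ≤
    ∑ k : Fin (2 ^ n), ∑ c, wt η c S *
      (if t.eval (orc τ i0 (plant G n k c)) = c x then (0 : ℝ) else 1) := by
  have hW : ∀ c, 0 ≤ wt η c S := fun c => wt_nonneg h0 (by linarith) c S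
  have hWs : 0 ≤ ∑ c, wt η c S := Finset.sum_nonneg fun c _ => hW c
  have h2n : (0 : ℝ) < 2 ^ n := by positivity
  have hT0 : (0 : ℝ) ≤ T := Nat.cast_nonneg T
  have hR : 0 ≤ ∑ k : Fin (2 ^ n), ∑ c, wt η c S *
      (if t.eval (orc τ i0 (plant G n k c)) = c x then (0 : ℝ) else 1) :=
    Finset.sum_nonneg fun k _ => Finset.sum_nonneg fun c _ =>
      mul_nonneg (hW c) (by split_ifs <;> norm_num)
  by_cases hx : ∃ i, (S i).1 = x
  · refine le_trans (mul_nonpos_of_nonneg_of_nonpos hWs ?_) hR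
    rw [if_pos hx]
    split_ifs <;> linarith
  by_cases hS : Function.Injective (fun i => (S i).1)
  swap
  · refine le_trans (mul_nonpos_of_nonneg_of_nonpos hWs ?_) hR
    rw [if_neg hx, if_neg hS]
    linarith
  rw [if_neg hx, if_pos hS]
  push Not at hx
  set p := t.path (orc τ i0 G) with hp
  have hpc : (p.card : ℝ) ≤ T := by
    exact_mod_cast le_trans (DT.card_path_le _ t) ht
  have pt : ∀ k c, (if t.eval (orc τ i0 G) = c x then (0 : ℝ) else 1) -
      ∑ q ∈ p, (if KeyIs τ G n q k then (1 : ℝ) else 0) -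
      ∑ q ∈ p, (if AgreeQ τ n q c then (1 : ℝ) else 0) ≤
      (if t.eval (orc τ i0 (plant G n k c)) = c x then (0 : ℝ) else 1) := by
    intro k c
    have n1 : ∀ q : Query m, (0 : ℝ) ≤ if KeyIs τ G n q k then (1 : ℝ) else 0 := by
      intro q; split_ifs <;> norm_num
    have n2 : ∀ q : Query m, (0 : ℝ) ≤ if AgreeQ τ n q c then (1 : ℝ) else 0 := by
      intro q; split_ifs <;> norm_num
    have s1 : 0 ≤ ∑ q ∈ p, (if KeyIs τ G n q k then (1 : ℝ) else 0) :=
      Finset.sum_nonneg fun q _ => n1 q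
    have s2 : 0 ≤ ∑ q ∈ p, (if AgreeQ τ n q c then (1 : ℝ) else 0) :=
      Finset.sum_nonneg fun q _ => n2 q
    have l1 : (if t.eval (orc τ i0 G) = c x then (0 : ℝ) else 1) ≤ 1 := by
      split_ifs <;> norm_num
    have l2 : (0 : ℝ) ≤ (if t.eval (orc τ i0 (plant G n k c)) = c x then (0 : ℝ) else 1) := by
      split_ifs <;> norm_num
    by_cases hb : ∀ q ∈ p, ¬ KeyIs τ G n q k ∧ ¬ AgreeQ τ n q c
    · rw [DT.eval_eq_of_path (O := orc τ i0 G) (O' := orc τ i0 (plant G n k c)) t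
        (fun q hq => orc_plant τ i0 G n k c q (hb q hq).1 (hb q hq).2)]
      linarith
    · push Not at hb
      obtain ⟨q, hq, hb⟩ := hb
      by_cases hk : KeyIs τ G n q k
      · have := Finset.single_le_sum (f := fun q => if KeyIs τ G n q k then (1 : ℝ) else 0)
          (fun q _ => n1 q) hq
        simp only [if_pos hk] at this
        linarith
      · have := Finset.single_le_sum (f := fun q => if AgreeQ τ n q c then (1 : ℝ) else 0)
          (fun q _ => n2 q) hq
        simp only [if_pos (hb hk)] at this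
        linarith
  refine le_trans ?_ (Finset.sum_le_sum fun k _ => Finset.sum_le_sum fun c _ =>
    mul_le_mul_of_nonneg_left (pt k c) (hW c))
  simp only [mul_sub, Finset.sum_sub_distrib]
  have e1 : ∑ k : Fin (2 ^ n), ∑ c, wt η c S * (if t.eval (orc τ i0 G) = c x then (0 : ℝ) else 1)
      = 2 ^ n * (1 / 2 * ∑ c, wt η c S) := by
    rw [fresh_half η S hx]; simp
  have e2 : ∑ k : Fin (2 ^ n), ∑ c, wt η c S * ∑ q ∈ p, (if KeyIs τ G n q k then (1 : ℝ) else 0)
      ≤ (∑ c, wt η c S) * T := by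
    simp only [← Finset.sum_mul]
    rw [← Finset.mul_sum, Finset.sum_comm]
    apply mul_le_mul_of_nonneg_left _ hWs
    calc _ ≤ ∑ q ∈ p, (1 : ℝ) := Finset.sum_le_sum fun q _ => sum_keyIs τ G n q
      _ ≤ T := by simpa using hpc
  have e3 : ∑ k : Fin (2 ^ n), ∑ c, wt η c S * ∑ q ∈ p, (if AgreeQ τ n q c then (1 : ℝ) else 0)
      ≤ (∑ c, wt η c S) * T := by
    have : ∑ c, wt η c S * ∑ q ∈ p, (if AgreeQ τ n q c then (1 : ℝ) else 0) ≤
        T * (exp (-(δ ^ 2 / 4)) ^ (m n) * ∑ c, wt η c S) := by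
      simp only [Finset.mul_sum (s := p)]
      rw [Finset.sum_comm]
      calc _ ≤ ∑ q ∈ p, exp (-(δ ^ 2 / 4)) ^ (m n) * ∑ c, wt η c S :=
            Finset.sum_le_sum fun q _ => sum_agreeQ τ n h0 h1 hδ0 hδ1 hτ hS q
        _ = p.card * (exp (-(δ ^ 2 / 4)) ^ (m n) * ∑ c, wt η c S) := by simp
        _ ≤ _ := mul_le_mul_of_nonneg_right hpc (by positivity)
    rw [Finset.sum_const, Finset.card_univ, Fintype.card_fin, nsmul_eq_mul]
    push_cast
    calc _ ≤ 2 ^ n * (T * (exp (-(δ ^ 2 / 4)) ^ (m n) * ∑ c, wt η c S)) :=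
          mul_le_mul_of_nonneg_left this h2n.le
      _ = (2 ^ n * exp (-(δ ^ 2 / 4)) ^ (m n)) * ((∑ c, wt η c S) * T) := by ring
      _ ≤ 1 * ((∑ c, wt η c S) * T) := mul_le_mul_of_nonneg_right hε (by positivity)
      _ = _ := by ring
  rw [e1]
  linarith

end Pool.Agent.MP_9f8ce8_lc

end

section

namespace Pool.Agent.MP_9f8ce8_lc

open Finset Real

variable {m : ℕ → ℕ}

lemma card_X (n : ℕ) : (Fintype.card (X n) : ℝ) = 2 ^ n := by simp

open Classical in
lemma sum_mem_pts {n M : ℕ} (S : Sample n M) :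
    ∑ x : X n, (if ∃ i, (S i).1 = x then (1 : ℝ) else 0) ≤ M := by
  rw [Finset.sum_boole]
  have : (univ.filter fun x : X n => ∃ i, (S i).1 = x).card ≤ M := by
    have h : (univ.filter fun x : X n => ∃ i, (S i).1 = x) = univ.image (fun i => (S i).1) := by
      ext x; simp
    rw [h]
    exact le_trans Finset.card_image_le (by simp)
  exact_mod_cast this

lemma level_hard {η δ : ℝ} (τ : ℕ → ℝ) (i0 : (n : ℕ) → Fin (m n))
    (G : (n : ℕ) → Fin (2 ^ n) → X n → Bool) (n : ℕ) (h0 : 0 ≤ η) (h1 : η ≤ 1 / 2) (hδ0 : 0 ≤ δ)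
    (hδ1 : δ ≤ 2) (hτ : 1 - η + δ ≤ τ n) (hε : 2 ^ n * exp (-(δ ^ 2 / 4)) ^ (m n) ≤ 1)
    {M T : ℕ} {Ω : Type} [Fintype Ω] [Nonempty Ω] (B : Sample n M → X n → Ω → DT (Query m))
    (hB : ∀ S x ω, (B S x ω).depth ≤ T) :
    ∃ (k : Fin (2 ^ n)) (c : X n → Bool), 1 / 2 - ((M : ℝ) / 2 + 2 * T + (M : ℝ) ^ 2) / 2 ^ n ≤
      err η c (fun _ => 1 / 2 ^ n) (fun S x ω => (B S x ω).eval (orc τ i0 (plant G n k c))) := by
  classical
  have h2n : (0 : ℝ) < 2 ^ n := by positivity
  have hΩ : (0 : ℝ) < Fintype.card Ω := by exact_mod_cast Fintype.card_pos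
  have hW : ∀ c (S : Sample n M), 0 ≤ wt η c S := fun c S => wt_nonneg h0 (by linarith) c S
  have hWs : ∀ S : Sample n M, 0 ≤ ∑ c, wt η c S := fun S => Finset.sum_nonneg fun c _ => hW c S
  have hD1 : ∑ _x : X n, (1 / 2 ^ n : ℝ) = 1 := by
    rw [Finset.sum_const, Finset.card_univ, nsmul_eq_mul, card_X]; field_simp
  have hD2 : ∑ _x : X n, (1 / 2 ^ n : ℝ) ^ 2 = 1 / 2 ^ n := by
    rw [Finset.sum_const, Finset.card_univ, nsmul_eq_mul, card_X]; field_simp
  set I : Fin (2 ^ n) → (X n → Bool) → Sample n M → X n → Ω → ℝ := fun k c S x ω =>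
    if (B S x ω).eval (orc τ i0 (plant G n k c)) = c x then (0 : ℝ) else 1 with hI
  set u : Sample n M → ℝ := fun S =>
    if Function.Injective (fun i => (S i).1) then (0 : ℝ) else 1 with hu
  have main : ∑ p : Fin (2 ^ n) × (X n → Bool),
      (1 / 2 - ((M : ℝ) / 2 + 2 * T + (M : ℝ) ^ 2) / 2 ^ n) ≤
      ∑ p : Fin (2 ^ n) × (X n → Bool), err η p.2 (fun _ => 1 / 2 ^ n)
        (fun S x ω => (B S x ω).eval (orc τ i0 (plant G n p.1 p.2))) := by
    have r1 : ∑ p : Fin (2 ^ n) × (X n → Bool), err η p.2 (fun _ => 1 / 2 ^ n)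
        (fun S x ω => (B S x ω).eval (orc τ i0 (plant G n p.1 p.2))) =
        ∑ S : Sample n M, ∑ x : X n, ∑ ω : Ω, 1 / (2 ^ n * (Fintype.card Ω : ℝ)) *
          ∑ k : Fin (2 ^ n), ∑ c, wt η c S * I k c S x ω := by
      have : ∀ p : Fin (2 ^ n) × (X n → Bool), err η p.2 (fun _ => 1 / 2 ^ n)
          (fun S x ω => (B S x ω).eval (orc τ i0 (plant G n p.1 p.2))) =
          ∑ S : Sample n M, ∑ x : X n, ∑ ω : Ω, 1 / (2 ^ n * (Fintype.card Ω : ℝ)) *
            (wt η p.2 S * I p.1 p.2 S x ω) := by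
        intro p
        unfold err
        apply Finset.sum_congr rfl; intro S _
        rw [Finset.mul_sum]
        apply Finset.sum_congr rfl; intro x _
        rw [Finset.mul_sum, Finset.sum_div, Finset.mul_sum]
        apply Finset.sum_congr rfl; intro ω _
        rw [hI]; unfold wt; field_simp
      simp only [this]
      rw [Finset.sum_comm]
      apply Finset.sum_congr rfl; intro S _
      rw [Finset.sum_comm]
      apply Finset.sum_congr rfl; intro x _
      rw [Finset.sum_comm]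
      apply Finset.sum_congr rfl; intro ω _
      rw [← Finset.mul_sum, Fintype.sum_prod_type]
    rw [r1]
    have r2 : ∀ S : Sample n M, (∑ c, wt η c S) * (2 ^ n / 2 - (M : ℝ) / 2 - 2 * T - 2 ^ n * u S) ≤
        ∑ x : X n, ∑ ω : Ω, 1 / (2 ^ n * (Fintype.card Ω : ℝ)) *
          ∑ k : Fin (2 ^ n), ∑ c, wt η c S * I k c S x ω := by
      intro S
      have a1 : ∀ x : X n, 1 / 2 ^ n * ((∑ c, wt η c S) *
          (2 ^ n / 2 - 2 ^ n / 2 * (if ∃ i, (S i).1 = x then 1 else 0) - 2 * T - 2 ^ n * u S)) ≤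
          ∑ ω : Ω, 1 / (2 ^ n * (Fintype.card Ω : ℝ)) *
            ∑ k : Fin (2 ^ n), ∑ c, wt η c S * I k c S x ω := by
        intro x
        refine le_trans (le_of_eq ?_) (Finset.sum_le_sum fun ω _ => mul_le_mul_of_nonneg_left
          (tree_bound τ i0 G n h0 h1 hδ0 hδ1 hτ hε S x (B S x ω) (hB S x ω)) (by positivity))
        rw [Finset.sum_const, Finset.card_univ, nsmul_eq_mul, hu]
        field_simp
      refine le_trans ?_ (Finset.sum_le_sum fun x _ => a1 x)
      have a2 : ∀ x : X n, 1 / 2 ^ n * ((∑ c, wt η c S) *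
          (2 ^ n / 2 - 2 ^ n / 2 * (if ∃ i, (S i).1 = x then 1 else 0) - 2 * T - 2 ^ n * u S)) =
          1 / 2 ^ n * ((∑ c, wt η c S) * (2 ^ n / 2 - 2 * T - 2 ^ n * u S)) -
          (∑ c, wt η c S) / 2 * (if ∃ i, (S i).1 = x then 1 else 0) := by
        intro x; field_simp; ring
      simp only [a2]
      rw [Finset.sum_sub_distrib, ← Finset.sum_mul, hD1, ← Finset.mul_sum]
      have := mul_le_mul_of_nonneg_left (sum_mem_pts S)
        (show 0 ≤ (∑ c, wt η c S) / 2 by have := hWs S; linarith)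
      linarith
    refine le_trans ?_ (Finset.sum_le_sum fun S _ => r2 S)
    simp only [Finset.sum_mul]
    rw [Finset.sum_comm, Fintype.sum_prod_type, Finset.sum_comm]
    apply Finset.sum_le_sum; intro c _
    have b1 : ∑ S : Sample n M, wt η c S = 1 :=
      sum_prod_one _ (sum_exProb_one η c hD1)
    have b2 : ∑ S : Sample n M, wt η c S * u S ≤ (M : ℝ) ^ 2 * (1 / 2 ^ n) := by
      have := exProb_collision (m := M) h0 (by linarith) c (D := fun _ => 1 / 2 ^ n)
        (fun _ => by positivity) hD1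
      rw [hD2] at this
      exact this
    have b3 : ∀ S : Sample n M, wt η c S * (2 ^ n / 2 - (M : ℝ) / 2 - 2 * T - 2 ^ n * u S) =
        (2 ^ n / 2 - (M : ℝ) / 2 - 2 * T) * wt η c S - 2 ^ n * (wt η c S * u S) := by
      intro S; ring
    simp only [b3]
    rw [Finset.sum_const, Finset.card_univ, Fintype.card_fin, nsmul_eq_mul,
      Finset.sum_sub_distrib, ← Finset.mul_sum, ← Finset.mul_sum, b1]
    push_cast
    have b4 := mul_le_mul_of_nonneg_left b2 h2n.le
    have b5 : (2 : ℝ) ^ n * ((M : ℝ) ^ 2 * (1 / 2 ^ n)) = (M : ℝ) ^ 2 := by field_simp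
    have b6 : (2 : ℝ) ^ n * (1 / 2 - ((M : ℝ) / 2 + 2 * T + (M : ℝ) ^ 2) / 2 ^ n) =
        2 ^ n / 2 - ((M : ℝ) / 2 + 2 * T + (M : ℝ) ^ 2) := by field_simp
    rw [b6]; rw [b5] at b4
    linarith
  obtain ⟨p, _, hp⟩ := Finset.exists_le_of_sum_le Finset.univ_nonempty main
  exact ⟨p.1, p.2, hp⟩

end Pool.Agent.MP_9f8ce8_lc

end

section

namespace Pool.Agent.MP_9f8ce8_lc

open Finset Real

lemma param {c γ : ℝ} (hc : 0 < c) (hγ : 0 < γ) :
    ∃ a : ℕ, 2 ≤ a ∧ ∀ n : ℕ,
      2 ^ n * exp (-(c * a * (n + 1))) * ((a : ℝ) * (n + 1) ^ 3) ^ 2 ≤ γ := by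
  set K : ℝ := 720 * (2 / c) ^ 6 with hK
  have hK0 : 0 < K := by positivity
  set t : ℝ := min 1 (γ / K) with ht
  have ht0 : 0 < t := lt_min one_pos (by positivity)
  obtain ⟨a, ha⟩ := exists_nat_ge (max 2 (4 / (c * t)))
  have ha2 : (2 : ℝ) ≤ a := le_trans (le_max_left _ _) ha
  have ha3 : 4 / (c * t) ≤ a := le_trans (le_max_right _ _) ha
  refine ⟨a, by exact_mod_cast ha2, fun n => ?_⟩
  have hn : (1 : ℝ) ≤ (n : ℝ) + 1 := by have := Nat.cast_nonneg (α := ℝ) n; linarith
  set u : ℝ := a * (n + 1) with hu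
  have hu0 : 0 < u := by positivity
  have h1 : ((a : ℝ) * (n + 1) ^ 3) ^ 2 ≤ u ^ 6 := by
    rw [hu, mul_pow, mul_pow, ← pow_mul]
    apply mul_le_mul_of_nonneg_right _ (by positivity)
    exact pow_le_pow_right₀ (by linarith) (by norm_num)
  have h2 : exp (-(c * u / 2)) * u ^ 6 ≤ K := by
    have := Real.pow_div_factorial_le_exp (x := c * u / 2) (by positivity) 6
    rw [Real.exp_neg, inv_mul_le_iff₀ (exp_pos _)]
    have h3 : u ^ 6 = (c * u / 2) ^ 6 / (Nat.factorial 6 : ℝ) * K := by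
      rw [hK]; simp only [Nat.factorial]; field_simp; norm_num
    rw [h3]
    exact mul_le_mul_of_nonneg_right this hK0.le
  have h3 : 2 * exp (-(c * a / 2)) ≤ t := by
    have h4 : c * a / 2 ≤ exp (c * a / 2) := by
      have := Real.add_one_le_exp (c * a / 2); linarith
    rw [Real.exp_neg, ← div_eq_mul_inv, div_le_iff₀ (exp_pos _)]
    rw [div_le_iff₀ (by positivity)] at ha3
    nlinarith
  have h4 : 2 ^ n * exp (-(c * u / 2)) ≤ t := by
    have h5 : exp (-(c * u / 2)) = exp (-(c * a / 2)) ^ (n + 1) := by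
      rw [← Real.exp_nat_mul]; congr 1; rw [hu]; push_cast; ring
    have h6 : 2 * exp (-(c * a / 2)) ≤ 1 := le_trans h3 (min_le_left _ _)
    have h7 : (2 * exp (-(c * a / 2))) ^ n ≤ 1 := pow_le_one₀ (by positivity) h6
    have h8 : 2 ^ n * exp (-(c * a / 2)) ^ (n + 1) =
        (2 * exp (-(c * a / 2))) ^ n * exp (-(c * a / 2)) := by rw [mul_pow]; ring
    rw [h5, h8]
    have := exp_pos (-(c * a / 2))
    nlinarith
  have h5 : exp (-(c * a * (n + 1))) = exp (-(c * u / 2)) * exp (-(c * u / 2)) := by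
    rw [← Real.exp_add]; congr 1; rw [hu]; ring
  have h6 : t * K ≤ γ := by
    have : t ≤ γ / K := min_le_right _ _
    rwa [le_div_iff₀ hK0] at this
  calc 2 ^ n * exp (-(c * a * (n + 1))) * ((a : ℝ) * (n + 1) ^ 3) ^ 2
      ≤ 2 ^ n * exp (-(c * a * (n + 1))) * u ^ 6 :=
        mul_le_mul_of_nonneg_left h1 (by positivity)
    _ = (2 ^ n * exp (-(c * u / 2))) * (exp (-(c * u / 2)) * u ^ 6) := by rw [h5]; ring
    _ ≤ t * K := mul_le_mul h4 h2 (by positivity) ht0.le
    _ ≤ γ := h6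

/-- the slack used at length n -/
noncomputable def slack (η : ℝ) (n : ℕ) : ℝ := (1 - 2 * η) / 8 / (n + 1)

lemma size_pos {a : ℕ} (ha : 2 ≤ a) (n : ℕ) : 0 < a * (n + 1) ^ 3 := by positivity

/-- the weak learner at every length -/
noncomputable def learnAll (η : ℝ) {a : ℕ} (ha : 2 ≤ a) (F : (n : ℕ) → Fin (2 ^ n) → X n → Bool)
    (n : ℕ) : Sample n (a * (n + 1) ^ 3) → X n → Bool × Bool → Bool :=
  learn (1 - η - slack η n) (F n) ⟨0, size_pos ha n⟩

lemma exists_size {η : ℝ} (h0 : 0 ≤ η) (h1 : η < 1 / 2) :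
    ∃ (a b : ℕ) (ha : 2 ≤ a), 0 < b ∧
      (∀ n : ℕ, 2 ^ n * exp (-(slack η n ^ 2 / 4)) ^ (a * (n + 1) ^ 3) ≤ 1) ∧
      ∀ (F : (n : ℕ) → Fin (2 ^ n) → X n → Bool) (n : ℕ) (k : Fin (2 ^ n)) (D : X n → ℝ),
        (∀ x, 0 ≤ D x) → ∑ x, D x = 1 →
        err η (F n k) D (learnAll η ha F n) < 1 / 2 - 1 / ((b : ℝ) * (n + 1) ^ 6) := by
  have hη : 0 < 1 - 2 * η := by linarith
  obtain ⟨a, ha, hp⟩ := param (c := ((1 - 2 * η) / 8) ^ 2 / 4) (γ := (1 - 2 * η) / 6)
    (by positivity) (by positivity)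
  obtain ⟨b, hb⟩ := exists_nat_gt (8 * (a : ℝ) ^ 2 / (1 - 2 * η))
  have ha' : (2 : ℝ) ≤ a := by exact_mod_cast ha
  have hb0 : (0 : ℝ) < b := lt_trans (by positivity) hb
  have hε : ∀ n : ℕ, exp (-(slack η n ^ 2 / 4)) ^ (a * (n + 1) ^ 3) =
      exp (-(((1 - 2 * η) / 8) ^ 2 / 4 * a * (n + 1))) := by
    intro n
    rw [← Real.exp_nat_mul]; congr 1
    unfold slack; push_cast; field_simp
  have hm : ∀ n : ℕ, (2 : ℝ) ≤ (a : ℝ) * (n + 1) ^ 3 := by
    intro n
    have hn : (1 : ℝ) ≤ (n : ℝ) + 1 := by have := Nat.cast_nonneg (α := ℝ) n; linarith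
    have : (1 : ℝ) ≤ ((n : ℝ) + 1) ^ 3 := one_le_pow₀ hn
    nlinarith
  refine ⟨a, b, ha, by exact_mod_cast hb0, fun n => ?_, fun F n k D hD hD1 => ?_⟩
  · rw [hε]
    have h2 := hp n
    have h3 := hm n
    have h4 : (1 : ℝ) ≤ ((a : ℝ) * (n + 1) ^ 3) ^ 2 := by nlinarith
    have h5 : (0 : ℝ) ≤ 2 ^ n * exp (-(((1 - 2 * η) / 8) ^ 2 / 4 * a * (n + 1))) := by positivity
    nlinarith
  · have hn : (1 : ℝ) ≤ (n : ℝ) + 1 := by have := Nat.cast_nonneg (α := ℝ) n; linarith
    have hs0 : 0 ≤ slack η n := by unfold slack; positivity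
    have hs1 : slack η n ≤ (1 - 2 * η) / 8 := by
      unfold slack; exact div_le_self (by positivity) hn
    have hm2 : 2 ≤ a * (n + 1) ^ 3 := by exact_mod_cast hm n
    have := learn_err h0 h1 hs0 hs1 hm2 (F n) ⟨0, size_pos ha n⟩ k hD hD1
    unfold learnAll
    refine lt_of_le_of_lt this ?_
    rw [hε]
    have h2 := hp n
    have h3 := hm n
    push_cast
    set ε := exp (-(((1 - 2 * η) / 8) ^ 2 / 4 * a * (n + 1))) with hεd
    set M : ℝ := ((a : ℝ) * (n + 1) ^ 3) ^ 2 with hM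
    have hε0 : 0 < ε := exp_pos _
    have hM1 : 1 ≤ M := by rw [hM]; nlinarith
    have h2n : (1 : ℝ) ≤ 2 ^ n := one_le_pow₀ (by norm_num)
    have h4 : 2 ^ n * ε ≤ (1 - 2 * η) / 6 / M := by rw [le_div_iff₀ (by linarith)]; exact h2
    have h5 : ε ≤ 1 / 6 := by
      have : 2 ^ n * ε * 1 ≤ 2 ^ n * ε * M := mul_le_mul_of_nonneg_left hM1 (by positivity)
      nlinarith
    have h6 : (1 - 2 * η) * (5 / 6) / M ≤ (1 - 2 * η) * (1 - ε) / M := by
      apply div_le_div_of_nonneg_right _ (by linarith)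
      apply mul_le_mul_of_nonneg_left (by linarith) hη.le
    have h7 : 1 / ((b : ℝ) * (n + 1) ^ 6) < (1 - 2 * η) / 8 / M := by
      rw [div_lt_div_iff₀ (by positivity) (by linarith)]
      rw [div_lt_iff₀ hη] at hb
      have : M = (a : ℝ) ^ 2 * (n + 1) ^ 6 := by rw [hM]; ring
      rw [this]
      have h8 : (0 : ℝ) < (n + 1) ^ 6 := by positivity
      nlinarith
    have e1 : (1 - 2 * η) * (5 / 6) / M = 5 / 6 * ((1 - 2 * η) / M) := by ring
    have e2 : (1 - 2 * η) / 6 / M = 1 / 6 * ((1 - 2 * η) / M) := by ring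
    have e3 : (1 - 2 * η) / 8 / M = 1 / 8 * ((1 - 2 * η) / M) := by ring
    have e4 : 0 < (1 - 2 * η) / M := by positivity
    rw [e1] at h6; rw [e2] at h4; rw [e3] at h7
    linarith

end Pool.Agent.MP_9f8ce8_lc

end

section

namespace Pool.Agent.MP_9f8ce8_lc

open Finset Real Filter

lemma stages {R : ℕ → Type} (G0 : (n : ℕ) → R n) (P : ℕ → ((n : ℕ) → R n) → Prop)
    (step : ∀ (s : ℕ) (G : (n : ℕ) → R n) (l : ℕ), ∃ (G' : (n : ℕ) → R n) (l' : ℕ), l < l' ∧
      (∀ n < l, G' n = G n) ∧ ∀ H : (n : ℕ) → R n, (∀ n < l', H n = G' n) → P s H) :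
    ∃ F : (n : ℕ) → R n, ∀ s, P s F := by
  choose g f h1 h2 h3 using step
  let seq : ℕ → ((n : ℕ) → R n) × ℕ := fun s =>
    Nat.rec (G0, 0) (fun s p => (g s p.1 p.2, f s p.1 p.2)) s
  have hs1 : ∀ s, (seq (s + 1)).1 = g s (seq s).1 (seq s).2 := fun s => rfl
  have hs2 : ∀ s, (seq (s + 1)).2 = f s (seq s).1 (seq s).2 := fun s => rfl
  have hlt : ∀ s, (seq s).2 < (seq (s + 1)).2 := fun s => by rw [hs2]; exact h1 _ _ _
  have hge : ∀ s, s ≤ (seq s).2 := by
    intro s
    induction s with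
    | zero => exact Nat.zero_le _
    | succ s ih => have := hlt s; omega
  have hmono : ∀ s t, s ≤ t → (seq s).2 ≤ (seq t).2 ∧
      ∀ n < (seq s).2, (seq t).1 n = (seq s).1 n := by
    intro s t hst
    induction t, hst using Nat.le_induction with
    | base => exact ⟨le_refl _, fun _ _ => rfl⟩
    | succ t hst ih =>
      refine ⟨le_trans ih.1 (hlt t).le, fun n hn => ?_⟩
      rw [hs1, h2 _ _ _ n (lt_of_lt_of_le hn ih.1), ih.2 n hn]
  refine ⟨fun n => (seq (n + 1)).1 n, fun s => h3 s (seq s).1 (seq s).2 _ fun n hn => ?_⟩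
  rw [← hs1]
  rw [← hs2] at hn
  have a1 := (hmono (n + 1) (max (n + 1) (s + 1)) (le_max_left _ _)).2 n
    (lt_of_lt_of_le (Nat.lt_succ_self n) (hge (n + 1)))
  have a2 := (hmono (s + 1) (max (n + 1) (s + 1)) (le_max_right _ _)).2 n hn
  rw [← a1, a2]

variable {m : ℕ → ℕ}

lemma tree_local (τ : ℕ → ℝ) (i0 : (n : ℕ) → Fin (m n)) (t : DT (Query m)) :
    ∃ l : ℕ, ∀ G H : (n : ℕ) → Fin (2 ^ n) → X n → Bool, (∀ n < l, H n = G n) →
      t.eval (orc τ i0 H) = t.eval (orc τ i0 G) := by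
  induction t with
  | leaf b => exact ⟨0, fun _ _ _ => rfl⟩
  | node q t f iht ihf =>
    obtain ⟨l1, h1⟩ := iht
    obtain ⟨l2, h2⟩ := ihf
    have : ∃ l0 : ℕ, ∀ G H : (n : ℕ) → Fin (2 ^ n) → X n → Bool, (∀ n < l0, H n = G n) →
        orc τ i0 H q = orc τ i0 G q := by
      cases q with
      | learner n S x ω =>
        refine ⟨n + 1, fun G H h => ?_⟩
        unfold orc oracle
        simp only [h n (Nat.lt_succ_self n)]
      | concept n k x =>
        refine ⟨n + 1, fun G H h => ?_⟩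
        unfold orc oracle
        simp only [h n (Nat.lt_succ_self n)]
    obtain ⟨l0, h0⟩ := this
    refine ⟨max l0 (max l1 l2), fun G H h => ?_⟩
    simp only [DT.eval]
    rw [h0 G H fun n hn => h n (by omega), h1 G H fun n hn => h n (by omega),
      h2 G H fun n hn => h n (by omega)]

lemma fam_local (τ : ℕ → ℝ) (i0 : (n : ℕ) → Fin (m n)) {ι : Type} [Finite ι]
    (B : ι → DT (Query m)) :
    ∃ l : ℕ, ∀ G H : (n : ℕ) → Fin (2 ^ n) → X n → Bool, (∀ n < l, H n = G n) →
      ∀ j, (B j).eval (orc τ i0 H) = (B j).eval (orc τ i0 G) := by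
  choose l hl using fun j => tree_local τ i0 (B j)
  obtain ⟨L, hL⟩ := (Set.finite_range l).bddAbove
  exact ⟨L, fun G H h j => hl j G H fun n hn =>
    h n (lt_of_lt_of_le hn (hL (Set.mem_range_self j)))⟩

lemma arith_level {n M : ℕ} (hn : 8 ≤ n) (hM : M ≤ 2 ^ (n / 4)) :
    ((M : ℝ) / 2 + 2 * ((2 ^ (n / 4) : ℕ) : ℝ) + (M : ℝ) ^ 2) / 2 ^ n ≤ 1 / 2 ^ (n / 4) := by
  have h1 : (M : ℝ) ≤ 2 ^ (n / 4) := by exact_mod_cast hM
  have h0 : (0 : ℝ) ≤ M := Nat.cast_nonneg M
  have h2 : (4 : ℝ) ≤ 2 ^ (n / 4) := by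
    have : (2 : ℝ) ^ 2 ≤ 2 ^ (n / 4) := pow_le_pow_right₀ (by norm_num) (by omega)
    linarith
  have h3 : ((2 : ℝ) ^ (n / 4)) ^ 4 ≤ 2 ^ n := by
    rw [← pow_mul]; exact pow_le_pow_right₀ (by norm_num) (by omega)
  push_cast
  set T : ℝ := 2 ^ (n / 4) with hT
  rw [div_le_div_iff₀ (by positivity) (by positivity)]
  have h4 : (M : ℝ) ^ 2 ≤ T ^ 2 := pow_le_pow_left₀ h0 h1 2
  have h5 : ((M : ℝ) / 2 + 2 * T + (M : ℝ) ^ 2) * T ≤ (T / 2 + 2 * T + T ^ 2) * T :=
    mul_le_mul_of_nonneg_right (by linarith) (by linarith)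
  have h6 : (T / 2 + 2 * T + T ^ 2) * T ≤ T ^ 4 := by
    have : T / 2 + 2 * T + T ^ 2 ≤ T ^ 3 := by nlinarith [sq_nonneg T]
    nlinarith
  linarith

lemma slack_small {η η' : ℝ} (h : η < η') : ∀ᶠ n : ℕ in atTop, 2 * slack η n ≤ η' - η := by
  obtain ⟨N, hN⟩ := exists_nat_ge ((1 - 2 * η) / 4 / (η' - η))
  filter_upwards [eventually_ge_atTop N] with n hn
  have h1 : (N : ℝ) ≤ n := by exact_mod_cast hn
  have h2 : 0 < η' - η := by linarith
  rw [div_le_iff₀ h2] at hN
  unfold slack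
  rw [← mul_div_assoc, div_le_iff₀ (by positivity)]
  nlinarith

lemma diagonal {η : ℝ} (h0 : 0 ≤ η) (h1 : η < 1 / 2) {a : ℕ} (ha : 2 ≤ a)
    (hε : ∀ n : ℕ, 2 ^ n * exp (-(slack η n ^ 2 / 4)) ^ (a * (n + 1) ^ 3) ≤ 1)
    (η' : ℕ → ℝ) (M r : ℕ → ℕ → ℕ)
    (B : (i n : ℕ) → Sample n (M i n) → X n → (Fin (r i n) → Bool) →
      DT (Query fun n => a * (n + 1) ^ 3))
    (hη' : ∀ i, η < η' i ∧ η' i ≤ 1 / 2)
    (hB : ∀ i, ∀ᶠ n in atTop, M i n ≤ 2 ^ (n / 4) ∧
      ∀ S x ω, (B i n S x ω).depth ≤ 2 ^ (n / 4)) :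
    ∃ F : (n : ℕ) → Fin (2 ^ n) → X n → Bool, ∀ s : ℕ, ∃ n ≥ s, ∃ k : Fin (2 ^ n),
      1 / 2 - 1 / 2 ^ (n / 4) ≤ err (η' (Nat.unpair s).1) (F n k) (fun _ => 1 / 2 ^ n)
        (fun S x ω => (B (Nat.unpair s).1 n S x ω).eval (oracle (learnAll η ha F) F)) := by
  apply stages (R := fun n => Fin (2 ^ n) → X n → Bool) (fun _ _ _ => false)
  intro s G l
  set i := (Nat.unpair s).1 with hi
  obtain ⟨n, ⟨⟨hM, hd⟩, hsl⟩, hn⟩ := (((hB i).and (slack_small (hη' i).1)).and
    (eventually_ge_atTop (max l (max s 8)))).exists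
  set τ : ℕ → ℝ := fun n => 1 - η - slack η n with hτ
  set i0 : (n : ℕ) → Fin (a * (n + 1) ^ 3) := fun n => ⟨0, size_pos ha n⟩ with hi0
  have horc : ∀ H, oracle (learnAll η ha H) H = orc (m := fun n => a * (n + 1) ^ 3) τ i0 H :=
    fun H => rfl
  have hs0 : 0 ≤ slack η n := by
    unfold slack
    have : 0 < 1 - 2 * η := by linarith
    positivity
  obtain ⟨k, c, hkc⟩ := level_hard (m := fun n => a * (n + 1) ^ 3) (η := η' i) (δ := slack η n)
    τ i0 G n (by linarith [(hη' i).1]) (hη' i).2 hs0 (by linarith [(hη' i).2])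
    (by rw [hτ]; dsimp only; linarith) (hε n) (B i n) hd
  obtain ⟨L, hL⟩ := fam_local (m := fun n => a * (n + 1) ^ 3) τ i0
    (ι := Sample n (M i n) × X n × (Fin (r i n) → Bool)) (fun p => B i n p.1 p.2.1 p.2.2)
  refine ⟨plant G n k c, max (n + 1) L, by omega, fun n' hn' => ?_, fun H hH => ?_⟩
  · unfold plant
    rw [Function.update_of_ne (by omega)]
  · refine ⟨n, by omega, k, ?_⟩
    have e1 : H n k = c := by
      rw [hH n (by omega)]; unfold plant; simp
    have e2 : (fun S x ω => (B i n S x ω).eval (oracle (learnAll η ha H) H)) =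
        fun S x ω => (B i n S x ω).eval
          (orc (m := fun n => a * (n + 1) ^ 3) τ i0 (plant G n k c)) := by
      funext S x ω
      rw [horc]
      exact hL (plant G n k c) H (fun n' hn' => hH n' (by omega)) (S, x, ω)
    rw [e1, e2]
    have := arith_level (n := n) (M := M i n) (by omega) hM
    linarith

end Pool.Agent.MP_9f8ce8_lc

end
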